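import Mathlib
import Pool.Agent.H47.W.Room2
import Pool.Agent.H33.Q1.Tile

set_option autoImplicit false
open Finset

/-!
# The closed walk around a square (Route W, W-G, R3b)

Square of tiles `-R ≤ x - o.1 < R`, `-R ≤ y - o.2 < R` (tile frame). `pt o R j` : `j`-th lattice point of
its boundary, counterclockwise from the lower left corner, period `8 R`. `sd o R j` : the side from
`pt o R j` to `pt o R (j + 1)`; `tn o R j`, `tu o R j` : its inner and outer tile.
`marks_sq` : sides with increasing numbers in a period are `Marks` of 47.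
`lab_sd`, `plab_sd` : the side leads outwards (`lab` = outer tile) iff `pt o R j` is a face
(`j + o.1 + o.2` odd).
-/

namespace Pool.Agent.H68.G

open Pool.Agent.H75.Perc hiding WL CT hh
open Pool.Agent.H75.TwoArm Pool.Agent.H33.Q1 Pool.Agent.H13.W Pool.Agent.H47.W

/-! ### Sides and tiles -/

lemma lt_hz (x y : ℤ) : eS (lt (x, y)) = hz x y := by
  unfold eS lt hz; refine Prod.ext ?_ ?_ <;> simp only <;> ring

lemma lt_hz' (x y : ℤ) : eN (lt (x, y - 1)) = hz x y := by
  unfold eN lt hz; refine Prod.ext ?_ ?_ <;> simp only <;> ring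

lemma lt_vt (x y : ℤ) : eW (lt (x, y)) = vt x y := by
  unfold eW lt vt; rfl

lemma lt_vt' (x y : ℤ) : eE (lt (x - 1, y)) = vt x y := by
  unfold eE lt vt; refine Prod.ext ?_ ?_ <;> simp only <;> ring

lemma hz_even {x y : ℤ} (h : (x + y) % 2 = 0) :
    lab (hz x y) = lt (x, y) ∧ plab (hz x y) = lt (x, y - 1) := by
  unfold lab plab hz lt
  have h1 : (x + 1 - y) % 2 = 1 := by omega
  have h2 : (x + 1 + y) % 2 = 1 := by omega
  simp only [h1, h2]
  constructor <;> refine Prod.ext ?_ ?_ <;> simp <;> ring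

lemma hz_odd {x y : ℤ} (h : (x + y) % 2 = 1) :
    lab (hz x y) = lt (x, y - 1) ∧ plab (hz x y) = lt (x, y) := by
  unfold lab plab hz lt
  have h1 : (x + 1 - y) % 2 = 0 := by omega
  have h2 : (x + 1 + y) % 2 = 0 := by omega
  simp only [h1, h2]
  constructor <;> refine Prod.ext ?_ ?_ <;> simp <;> ring

lemma vt_even {x y : ℤ} (h : (x + y) % 2 = 0) :
    lab (vt x y) = lt (x - 1, y) ∧ plab (vt x y) = lt (x, y) := by
  unfold lab plab vt lt
  have h1 : (x - y) % 2 = 0 := by omega
  have h2 : (x + y + 1) % 2 = 1 := by omega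
  simp only [h1, h2]
  constructor <;> refine Prod.ext ?_ ?_ <;> simp <;> ring

lemma vt_odd {x y : ℤ} (h : (x + y) % 2 = 1) :
    lab (vt x y) = lt (x, y) ∧ plab (vt x y) = lt (x - 1, y) := by
  unfold lab plab vt lt
  have h1 : (x - y) % 2 = 1 := by omega
  have h2 : (x + y + 1) % 2 = 0 := by omega
  simp only [h1, h2]
  constructor <;> refine Prod.ext ?_ ?_ <;> simp <;> ring

/-- vertex index of an even lattice point of the tile frame -/
def V (p : ℤ × ℤ) : ℤ × ℤ := ((p.1 - p.2) / 2, (p.1 + p.2) / 2)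

/-- face index of an odd lattice point of the tile frame -/
def Fc (p : ℤ × ℤ) : ℤ × ℤ := ((p.1 - p.2 + 1) / 2, (p.1 + p.2 + 1) / 2)

/-- vertex and face of a side -/
lemma vx_fi_even {c : ℤ × ℤ} (h : ((pa c).1 + (pa c).2) % 2 = 0) :
    vx c = V (pa c) ∧ fi c = Fc (pb c) := by
  obtain ⟨x, y, rfl⟩ | ⟨x, y, rfl⟩ := hz_or_vt c
  · rw [pa_hz] at h ⊢
    rw [pb_hz]
    simp only at h
    unfold vx fi V Fc hz
    constructor <;> refine Prod.ext ?_ ?_ <;> simp only <;> omega
  · rw [pa_vt] at h ⊢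
    rw [pb_vt]
    simp only at h
    unfold vx fi V Fc vt
    constructor <;> refine Prod.ext ?_ ?_ <;> simp only <;> omega

lemma vx_fi_odd {c : ℤ × ℤ} (h : ((pa c).1 + (pa c).2) % 2 = 1) :
    vx c = V (pb c) ∧ fi c = Fc (pa c) := by
  obtain ⟨x, y, rfl⟩ | ⟨x, y, rfl⟩ := hz_or_vt c
  · rw [pa_hz] at h ⊢
    rw [pb_hz]
    simp only at h
    unfold vx fi V Fc hz
    constructor <;> refine Prod.ext ?_ ?_ <;> simp only <;> omega
  · rw [pa_vt] at h ⊢
    rw [pb_vt]
    simp only at h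
    unfold vx fi V Fc vt
    constructor <;> refine Prod.ext ?_ ?_ <;> simp only <;> omega

lemma Jn.vx_fi {c p q : ℤ × ℤ} (h : Jn c p q) (hp : (p.1 + p.2) % 2 = 0) :
    vx c = V p ∧ fi c = Fc q := by
  rcases h with ⟨rfl, rfl⟩ | ⟨rfl, rfl⟩
  · exact vx_fi_even hp
  · refine vx_fi_odd ?_
    obtain ⟨x, y, rfl⟩ | ⟨x, y, rfl⟩ := hz_or_vt c
    · rw [pb_hz] at hp
      rw [pa_hz]
      simp only at hp ⊢
      omega
    · rw [pb_vt] at hp
      rw [pa_vt]
      simp only at hp ⊢
      omega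

/-! ### The walk -/

/-- relative points of one period -/
def ptq (R j : ℤ) : ℤ × ℤ :=
  if j < 2 * R then (-R + j, -R) else if j < 4 * R then (R, j - 3 * R)
  else if j < 6 * R then (5 * R - j, R) else (-R, 7 * R - j)

/-- `j`-th point of the boundary of the square -/
def pt (o : ℤ × ℤ) (R j : ℤ) : ℤ × ℤ :=
  (o.1 + (ptq R (j % (8 * R))).1, o.2 + (ptq R (j % (8 * R))).2)

/-- `j`-th side, one period -/
def sdq (o : ℤ × ℤ) (R j : ℤ) : ℤ × ℤ :=
  if j < 2 * R then hz (o.1 - R + j) (o.2 - R) else if j < 4 * R then vt (o.1 + R) (o.2 + j - 3 * R)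
  else if j < 6 * R then hz (o.1 + 5 * R - j - 1) (o.2 + R) else vt (o.1 - R) (o.2 + 7 * R - j - 1)

/-- `j`-th side of the boundary of the square -/
def sd (o : ℤ × ℤ) (R j : ℤ) : ℤ × ℤ := sdq o R (j % (8 * R))

/-- inner tile, one period -/
def tnq (o : ℤ × ℤ) (R j : ℤ) : ℤ × ℤ :=
  if j < 2 * R then (o.1 - R + j, o.2 - R) else if j < 4 * R then (o.1 + R - 1, o.2 + j - 3 * R)
  else if j < 6 * R then (o.1 + 5 * R - j - 1, o.2 + R - 1) else (o.1 - R, o.2 + 7 * R - j - 1)

/-- outer tile, one period -/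
def tuq (o : ℤ × ℤ) (R j : ℤ) : ℤ × ℤ :=
  if j < 2 * R then (o.1 - R + j, o.2 - R - 1) else if j < 4 * R then (o.1 + R, o.2 + j - 3 * R)
  else if j < 6 * R then (o.1 + 5 * R - j - 1, o.2 + R) else (o.1 - R - 1, o.2 + 7 * R - j - 1)

/-- inner tile of the `j`-th side -/
def tn (o : ℤ × ℤ) (R j : ℤ) : ℤ × ℤ := tnq o R (j % (8 * R))

/-- outer tile of the `j`-th side -/
def tu (o : ℤ × ℤ) (R j : ℤ) : ℤ × ℤ := tuq o R (j % (8 * R))

section walk

variable {o : ℤ × ℤ} {R j j' : ℤ}

lemma jmod (hR : 0 < R) (j : ℤ) : 0 ≤ j % (8 * R) ∧ j % (8 * R) < 8 * R :=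
  ⟨Int.emod_nonneg _ (by omega), Int.emod_lt_of_pos _ (by omega)⟩

/-- next residue -/
lemma jsucc (hR : 0 < R) (j : ℤ) : ((j + 1) % (8 * R) = j % (8 * R) + 1 ∧ j % (8 * R) + 1 < 8 * R) ∨
    ((j + 1) % (8 * R) = 0 ∧ j % (8 * R) = 8 * R - 1) := by
  have h := jmod hR j
  have e : (j + 1) % (8 * R) = (j % (8 * R) + 1) % (8 * R) := (Int.emod_add_emod j (8 * R) 1).symm
  by_cases h1 : j % (8 * R) + 1 < 8 * R
  · left
    rw [e, Int.emod_eq_of_lt (by omega) h1]
    exact ⟨rfl, h1⟩
  · right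
    have h2 : j % (8 * R) = 8 * R - 1 := by omega
    rw [e, h2]
    refine ⟨?_, rfl⟩
    rw [sub_add_cancel, Int.emod_self]

lemma pt_add : pt o R (j + 8 * R) = pt o R j := by unfold pt; rw [Int.add_emod_right]
lemma sd_add : sd o R (j + 8 * R) = sd o R j := by unfold sd; rw [Int.add_emod_right]
lemma tn_add : tn o R (j + 8 * R) = tn o R j := by unfold tn; rw [Int.add_emod_right]
lemma tu_add : tu o R (j + 8 * R) = tu o R j := by unfold tu; rw [Int.add_emod_right]

/-- **the side joins the two points** -/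
lemma jn_sd (hR : 0 < R) (j : ℤ) : Jn (sd o R j) (pt o R j) (pt o R (j + 1)) := by
  obtain ⟨h0, h1⟩ := jmod hR j
  unfold Jn sd pt
  rcases jsucc hR j with ⟨e1, e2⟩ | ⟨e1, e2⟩
  · rw [e1]
    set i := j % (8 * R)
    unfold sdq ptq
    by_cases a1 : i < 2 * R
    · rw [if_pos a1, if_pos a1, pa_hz, pb_hz]
      left
      by_cases b1 : i + 1 < 2 * R
      · rw [if_pos b1]
        constructor <;> refine Prod.ext ?_ ?_ <;> simp only <;> omega
      · rw [if_neg b1, if_pos (by omega)]
        constructor <;> refine Prod.ext ?_ ?_ <;> simp only <;> omega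
    · by_cases a2 : i < 4 * R
      · rw [if_neg a1, if_neg a1, if_pos a2, if_pos a2, pa_vt, pb_vt, if_neg (by omega : ¬ i + 1 < 2 * R)]
        left
        by_cases b1 : i + 1 < 4 * R
        · rw [if_pos b1]
          constructor <;> refine Prod.ext ?_ ?_ <;> simp only <;> omega
        · rw [if_neg b1, if_pos (by omega)]
          constructor <;> refine Prod.ext ?_ ?_ <;> simp only <;> omega
      · by_cases a3 : i < 6 * R
        · rw [if_neg a1, if_neg a1, if_neg a2, if_neg a2, if_pos a3, if_pos a3, pa_hz, pb_hz,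
            if_neg (by omega : ¬ i + 1 < 2 * R), if_neg (by omega : ¬ i + 1 < 4 * R)]
          right
          by_cases b1 : i + 1 < 6 * R
          · rw [if_pos b1]
            constructor <;> refine Prod.ext ?_ ?_ <;> simp only <;> omega
          · rw [if_neg b1]
            constructor <;> refine Prod.ext ?_ ?_ <;> simp only <;> omega
        · rw [if_neg a1, if_neg a1, if_neg a2, if_neg a2, if_neg a3, if_neg a3, pa_vt, pb_vt,
            if_neg (by omega : ¬ i + 1 < 2 * R), if_neg (by omega : ¬ i + 1 < 4 * R),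
            if_neg (by omega : ¬ i + 1 < 6 * R)]
          right
          constructor <;> refine Prod.ext ?_ ?_ <;> simp only <;> omega
  · rw [e1, e2]
    unfold sdq ptq
    rw [if_neg (by omega : ¬ 8 * R - 1 < 2 * R), if_neg (by omega : ¬ 8 * R - 1 < 4 * R),
      if_neg (by omega : ¬ 8 * R - 1 < 6 * R), if_neg (by omega : ¬ 8 * R - 1 < 2 * R),
      if_neg (by omega : ¬ 8 * R - 1 < 4 * R), if_neg (by omega : ¬ 8 * R - 1 < 6 * R),
      if_pos (by omega : (0 : ℤ) < 2 * R), pa_vt, pb_vt]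
    right
    constructor <;> refine Prod.ext ?_ ?_ <;> simp only <;> omega

/-- parity of the points -/
lemma par_pt (hR : 0 < R) (ho : (o.1 + o.2) % 2 = 0) (j : ℤ) :
    ((pt o R j).1 + (pt o R j).2) % 2 = j % 2 := by
  obtain ⟨h0, h1⟩ := jmod hR j
  have h2 : (j % (8 * R)) % 2 = j % 2 := Int.emod_emod_of_dvd _ ⟨4 * R, by ring⟩
  unfold pt ptq
  split_ifs <;> simp only <;> omega

/-- **the tiles on the two sides** -/
lemma lab_sd (hR : 0 < R) (ho : (o.1 + o.2) % 2 = 0) (hj : j % 2 = 1) :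
    lab (sd o R j) = lt (tu o R j) ∧ plab (sd o R j) = lt (tn o R j) := by
  obtain ⟨h0, h1⟩ := jmod hR j
  have h2 : (j % (8 * R)) % 2 = j % 2 := Int.emod_emod_of_dvd _ ⟨4 * R, by ring⟩
  unfold sd tu tn sdq tuq tnq
  set i := j % (8 * R)
  by_cases a1 : i < 2 * R
  · rw [if_pos a1, if_pos a1, if_pos a1]
    exact hz_odd (by omega)
  · by_cases a2 : i < 4 * R
    · rw [if_neg a1, if_neg a1, if_neg a1, if_pos a2, if_pos a2, if_pos a2]
      exact vt_odd (by omega)
    · by_cases a3 : i < 6 * R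
      · rw [if_neg a1, if_neg a1, if_neg a1, if_neg a2, if_neg a2, if_neg a2, if_pos a3, if_pos a3,
          if_pos a3]
        exact hz_even (by omega)
      · rw [if_neg a1, if_neg a1, if_neg a1, if_neg a2, if_neg a2, if_neg a2, if_neg a3, if_neg a3,
          if_neg a3]
        exact vt_even (by omega)

lemma plab_sd (hR : 0 < R) (ho : (o.1 + o.2) % 2 = 0) (hj : j % 2 = 0) :
    plab (sd o R j) = lt (tu o R j) ∧ lab (sd o R j) = lt (tn o R j) := by
  obtain ⟨h0, h1⟩ := jmod hR j
  have h2 : (j % (8 * R)) % 2 = j % 2 := Int.emod_emod_of_dvd _ ⟨4 * R, by ring⟩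
  unfold sd tu tn sdq tuq tnq
  set i := j % (8 * R)
  by_cases a1 : i < 2 * R
  · rw [if_pos a1, if_pos a1, if_pos a1]
    exact (hz_even (by omega)).symm
  · by_cases a2 : i < 4 * R
    · rw [if_neg a1, if_neg a1, if_neg a1, if_pos a2, if_pos a2, if_pos a2]
      exact (vt_even (by omega)).symm
    · by_cases a3 : i < 6 * R
      · rw [if_neg a1, if_neg a1, if_neg a1, if_neg a2, if_neg a2, if_neg a2, if_pos a3, if_pos a3,
          if_pos a3]
        exact (hz_odd (by omega)).symm
      · rw [if_neg a1, if_neg a1, if_neg a1, if_neg a2, if_neg a2, if_neg a2, if_neg a3, if_neg a3,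
          if_neg a3]
        exact (vt_odd (by omega)).symm

lemma tiles_sd (hR : 0 < R) (ho : (o.1 + o.2) % 2 = 0) (j : ℤ) :
    (lab (sd o R j) = lt (tu o R j) ∧ plab (sd o R j) = lt (tn o R j)) ∨
      (plab (sd o R j) = lt (tu o R j) ∧ lab (sd o R j) = lt (tn o R j)) := by
  rcases Int.emod_two_eq_zero_or_one j with h | h
  · exact Or.inr (plab_sd hR ho h)
  · exact Or.inl (lab_sd hR ho h)

/-- the square -/
def Sq (o : ℤ × ℤ) (R : ℤ) (t : ℤ × ℤ) : Prop :=
  (o.1 - R ≤ t.1 ∧ t.1 < o.1 + R) ∧ o.2 - R ≤ t.2 ∧ t.2 < o.2 + R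

lemma sq_tn (hR : 0 < R) (j : ℤ) : Sq o R (tn o R j) := by
  obtain ⟨h0, h1⟩ := jmod hR j
  unfold Sq tn tnq
  split_ifs <;> simp only <;> omega

/-- the outer tiles are side neighbours of the square -/
lemma nsq_tu (hR : 0 < R) (j : ℤ) : ¬ Sq o R (tu o R j) := by
  obtain ⟨h0, h1⟩ := jmod hR j
  unfold Sq tu tuq
  split_ifs <;> simp only <;> omega

/-- the sides are different -/
lemma sd_inj (hR : 0 < R) (h : sd o R j = sd o R j') : j % (8 * R) = j' % (8 * R) := by
  obtain ⟨h0, h1⟩ := jmod hR j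
  obtain ⟨h0', h1'⟩ := jmod hR j'
  unfold sd sdq at h
  have hh : ∀ {x y x' y' : ℤ}, hz x y = hz x' y' → x = x' ∧ y = y' := by
    intro x y x' y' h
    unfold hz at h
    simp only [Prod.mk.injEq] at h
    omega
  have hv : ∀ {x y x' y' : ℤ}, vt x y = vt x' y' → x = x' ∧ y = y' := by
    intro x y x' y' h
    unfold vt at h
    simp only [Prod.mk.injEq] at h
    omega
  have hn : ∀ {x y x' y' : ℤ}, hz x y = vt x' y' → False := by
    intro x y x' y' h
    unfold hz vt at h
    simp only [Prod.mk.injEq] at h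
    omega
  split_ifs at h
  all_goals first
    | (exact absurd h fun h => hn h)
    | (exact absurd h.symm fun h => hn h)
    | (have := hh h; omega)
    | (have := hv h; omega)

/-! ### Marks -/

variable {Λ : Set (ℤ × ℤ)}

/-- the walls of the square are boundary sides of `Λ` -/
lemma bd_sd (hR : 0 < R) (ho : (o.1 + o.2) % 2 = 0) (hin : ∀ t, Sq o R t → lt t ∉ Λ)
    (hout : ∀ j, lt (tu o R j) ∈ Λ) (j : ℤ) : Bd Λ (sd o R j) := by
  have h1 := hin _ (sq_tn (o := o) hR j)
  have h2 := hout j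
  rcases tiles_sd hR ho j with ⟨e1, e2⟩ | ⟨e1, e2⟩
  · exact ⟨Or.inl (e1 ▸ h2), lt (tn o R j), h1, Or.inr e2.symm⟩
  · exact ⟨Or.inr (e1 ▸ h2), lt (tn o R j), h1, Or.inl e2.symm⟩

/-- the outer (for `Λ`) tile of a wall of the square is its inner tile -/
lemma out_sd (hR : 0 < R) (ho : (o.1 + o.2) % 2 = 0)
    (hout : ∀ j, lt (tu o R j) ∈ Λ) {t : ℤ × ℤ} (h : OutT Λ (sd o R j) t) : t = lt (tn o R j) := by
  obtain ⟨h1, h2⟩ := h
  have h3 := hout j
  rcases tiles_sd hR ho j with ⟨e1, e2⟩ | ⟨e1, e2⟩ <;> rcases h2 with h2 | h2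
  · rw [h2, e1] at h1; exact absurd h3 h1
  · rw [h2, e2]
  · rw [h2, e2]
  · rw [h2, e1] at h1; exact absurd h3 h1

/-- **tiles of the square are joined inside** -/
lemma tc_sq (hin : ∀ t, Sq o R t → lt t ∉ Λ) {s t : ℤ × ℤ} (hs : Sq o R s) (ht : Sq o R t) :
    TC Λ (lt s) (lt t) := by
  -- one step to the right
  have hor : ∀ x y, Sq o R (x, y) → Sq o R (x + 1, y) → TC Λ (lt (x, y)) (lt (x + 1, y)) := by
    intro x y h1 h2
    refine Relation.ReflTransGen.single ⟨hin _ h1, hin _ h2, vt (x + 1) y, ?_⟩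
    have e1 : lt (x, y) = lt (x + 1 - 1, y) := by rw [add_sub_cancel_right]
    rcases Int.emod_two_eq_zero_or_one (x + 1 + y) with h | h
    · obtain ⟨k1, k2⟩ := vt_even h
      left; exact ⟨by rw [k1, e1], by rw [k2]⟩
    · obtain ⟨k1, k2⟩ := vt_odd h
      right; exact ⟨by rw [k2, e1], by rw [k1]⟩
  have ver : ∀ x y, Sq o R (x, y) → Sq o R (x, y + 1) → TC Λ (lt (x, y)) (lt (x, y + 1)) := by
    intro x y h1 h2
    refine Relation.ReflTransGen.single ⟨hin _ h1, hin _ h2, hz x (y + 1), ?_⟩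
    have e1 : lt (x, y) = lt (x, y + 1 - 1) := by rw [add_sub_cancel_right]
    rcases Int.emod_two_eq_zero_or_one (x + (y + 1)) with h | h
    · obtain ⟨k1, k2⟩ := hz_even h
      right; exact ⟨by rw [k2, e1], by rw [k1]⟩
    · obtain ⟨k1, k2⟩ := hz_odd h
      left; exact ⟨by rw [k1, e1], by rw [k2]⟩
  have hor' : ∀ (n : ℕ) x y, Sq o R (x, y) → Sq o R (x + n, y) → TC Λ (lt (x, y)) (lt (x + n, y)) := by
    intro n
    induction n with
    | zero => intro x y _ _; simp only [Nat.cast_zero, add_zero]; exact TC.refl _ _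
    | succ n ih =>
      intro x y h1 h2
      have h3 : Sq o R (x + n, y) := by unfold Sq at *; push_cast at h2; simp only at *; omega
      refine (ih x y h1 h3).trans ?_
      have := hor (x + n) y h3 (by push_cast at h2; rw [add_assoc]; exact h2)
      rw [add_assoc] at this
      push_cast
      exact this
  have ver' : ∀ (n : ℕ) x y, Sq o R (x, y) → Sq o R (x, y + n) → TC Λ (lt (x, y)) (lt (x, y + n)) := by
    intro n
    induction n with
    | zero => intro x y _ _; simp only [Nat.cast_zero, add_zero]; exact TC.refl _ _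
    | succ n ih =>
      intro x y h1 h2
      have h3 : Sq o R (x, y + n) := by unfold Sq at *; push_cast at h2; simp only at *; omega
      refine (ih x y h1 h3).trans ?_
      have := ver x (y + n) h3 (by push_cast at h2; rw [add_assoc]; exact h2)
      rw [add_assoc] at this
      push_cast
      exact this
  obtain ⟨x, y⟩ := s
  obtain ⟨x', y'⟩ := t
  have hm : Sq o R (x', y) := ⟨ht.1, hs.2⟩
  have step1 : TC Λ (lt (x, y)) (lt (x', y)) := by
    rcases le_total x x' with h | h
    · have e : x' = x + (x' - x).toNat := by rw [Int.toNat_of_nonneg (by omega)]; ring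
      rw [e] at hm ⊢
      exact hor' _ x y hs hm
    · have e : x = x' + (x - x').toNat := by rw [Int.toNat_of_nonneg (by omega)]; ring
      rw [e] at hs ⊢
      exact (hor' _ x' y hm hs).symm
  have step2 : TC Λ (lt (x', y)) (lt (x', y')) := by
    rcases le_total y y' with h | h
    · have e : y' = y + (y' - y).toNat := by rw [Int.toNat_of_nonneg (by omega)]; ring
      rw [e] at ht ⊢
      exact ver' _ x' y hm ht
    · have e : y = y' + (y - y').toNat := by rw [Int.toNat_of_nonneg (by omega)]; ring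
      rw [e] at hm ⊢
      exact (ver' _ x' y' ht hm).symm
  exact step1.trans step2

/-- part of the walk without marks -/
lemma bc_sd (hR : 0 < R) (ho : (o.1 + o.2) % 2 = 0) (hin : ∀ t, Sq o R t → lt t ∉ Λ)
    (hout : ∀ j, lt (tu o R j) ∈ Λ) {M : Set (ℤ × ℤ)} {a : ℤ} (n : ℕ)
    (hM : ∀ i, a ≤ i → i < a + n → sd o R i ∉ M) : BC Λ M (pt o R a) (pt o R (a + n)) := by
  induction n with
  | zero => simp only [Nat.cast_zero, add_zero]; exact BC.refl _ _ _
  | succ n ih =>
    refine (ih fun i h1 h2 => hM i h1 (by push_cast; omega)).trans ?_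
    have h := jn_sd (o := o) hR (a + n)
    rw [add_assoc] at h
    push_cast
    exact BC.single h (bd_sd hR ho hin hout _) (hM _ (by omega) (by push_cast; omega))

/-- two numbers in a period with the same residue are equal -/
lemma mod_inj (hR : 0 < R) (h : j % (8 * R) = j' % (8 * R)) {a : ℤ} (h1 : a ≤ j) (h2 : j < a + 8 * R)
    (h3 : a ≤ j') (h4 : j' < a + 8 * R) : j = j' := by
  obtain ⟨k, hk⟩ : (8 * R) ∣ j - j' :=
    Int.dvd_of_emod_eq_zero (Int.emod_eq_emod_iff_emod_sub_eq_zero.1 h)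
  have hk1 : k < 1 := by
    by_contra hc
    have : 8 * R * 1 ≤ 8 * R * k := mul_le_mul_of_nonneg_left (by omega) (by omega)
    omega
  have hk2 : -1 < k := by
    by_contra hc
    have : 8 * R * k ≤ 8 * R * (-1) := mul_le_mul_of_nonneg_left (by omega) (by omega)
    omega
  have : k = 0 := by omega
  subst this
  rw [mul_zero] at hk
  omega

/-- **Marks on the boundary of the square.** -/
theorem marks_sq (hR : 0 < R) (ho : (o.1 + o.2) % 2 = 0) (hin : ∀ t, Sq o R t → lt t ∉ Λ)
    (hout : ∀ j, lt (tu o R j) ∈ Λ) {k : ℕ} {f : ℕ → ℤ} (hf : ∀ i j, i < j → j < k → f i < f j)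
    {a : ℤ} (hf0 : ∀ i < k, a ≤ f i ∧ f i < a + 8 * R) :
    Marks Λ k (fun i => sd o R (f i)) (fun i => pt o R (f i)) (fun i => pt o R (f i + 1)) where
  jn i _ := jn_sd hR (f i)
  bd i _ := bd_sd hR ho hin hout (f i)
  inj i hi j hj h := by
    have h1 := mod_inj hR (sd_inj hR h) (hf0 i hi).1 (hf0 i hi).2 (hf0 j hj).1 (hf0 j hj).2
    rcases lt_trichotomy i j with h2 | h2 | h2
    · have := hf i j h2 hj; omega
    · exact h2
    · have := hf j i h2 hi; omega
  arc i hi := by
    have h1 := hf i (i + 1) (by omega) hi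
    have e : f (i + 1) = f i + 1 + (f (i + 1) - (f i + 1)).toNat := by
      rw [Int.toNat_of_nonneg (by omega)]; ring
    rw [e]
    refine bc_sd hR ho hin hout _ fun l g1 g2 => ?_
    rw [← e] at g2
    rintro ⟨l', hl', hl⟩
    have h3 := mod_inj hR (sd_inj hR hl) (by have := (hf0 i (by omega)).1; omega)
      (by have := (hf0 _ hi).2; omega) (hf0 l' hl').1 (hf0 l' hl').2
    subst h3
    rcases lt_trichotomy l' i with h4 | h4 | h4
    · have := hf l' i h4 (by omega); omega
    · subst h4; omega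
    · rcases lt_or_ge l' (i + 1) with h5 | h5
      · omega
      · rcases eq_or_lt_of_le h5 with h6 | h6
        · subst h6; omega
        · have := hf (i + 1) l' h6 hl'; omega

/-- four increasing numbers -/
def f4 (j1 j2 j3 j4 : ℤ) (i : ℕ) : ℤ := if i = 0 then j1 else if i = 1 then j2 else if i = 2 then j3 else j4

/-- **Two strands outside of the square do not cross.** Any cut of the boundary. -/
theorem sq_nc (hR : 0 < R) (ho : (o.1 + o.2) % 2 = 0) (hin : ∀ t, Sq o R t → lt t ∉ Λ)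
    (hout : ∀ j, lt (tu o R j) ∈ Λ) {w : Finset (ℤ × ℤ)} {j1 j2 j3 j4 : ℤ} (h12 : j1 < j2)
    (h23 : j2 < j3) (h34 : j3 < j4) (h41 : j4 < j1 + 8 * R)
    (hr : (SG Λ ∅ w).Reachable (sd o R j1) (sd o R j3))
    (hr' : (SG Λ ∅ w).Reachable (sd o R j2) (sd o R j4)) : False := by
  have hm := marks_sq (k := 4) (f := f4 j1 j2 j3 j4) (a := j1) hR ho hin hout (by
      intro i j hij hj
      unfold f4
      rcases (show j = 1 ∨ j = 2 ∨ j = 3 by omega) with rfl | rfl | rfl
      · have : i = 0 := by omega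
        subst this
        simpa using h12
      · rcases (show i = 0 ∨ i = 1 by omega) with rfl | rfl
        · simpa using h12.trans h23
        · simpa using h23
      · rcases (show i = 0 ∨ i = 1 ∨ i = 2 by omega) with rfl | rfl | rfl
        · simpa using (h12.trans h23).trans h34
        · simpa using h23.trans h34
        · simpa using h34)
    (by
      intro i hi
      unfold f4
      split_ifs <;> omega)
  refine sg_planar (i1 := 0) (i2 := 1) (i3 := 2) (i4 := 3) hm (by norm_num) (by norm_num)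
    (by norm_num) (by norm_num) ?_ (fun e _ he => absurd he (Set.notMem_empty e))
    (fun e _ he => absurd he (Set.notMem_empty e)) hr hr'
  intro s t h1 h2
  rw [out_sd hR ho hout h1, out_sd hR ho hout h2]
  exact tc_sq hin (sq_tn hR _) (sq_tn hR _)

end walk

end Pool.Agent.H68.G
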