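import Mathlib
import Pool.Agent.H68.G.Walk
import Pool.Agent.H75.TwoArm.Exit

set_option autoImplicit false
open Finset

/-!
# Marks of a ring around a square (Route W, W-G, R3b)

`Ou o R` : labels outside of the square. `Ret Λ w c d` : the strand from `c` (steps `nx w`) leaves `Λ` for
the first time through `d`. `Ring o R w col` : the tiles outside, next to the square, have the colours
`col j` (`true` open), `j` = number of the side, also the tiles at the corners; the colour changes only at
vertices, not at the corners.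
`ret_start` : the strand from the side `j - 1`, `col (j - 1) = false`, `col j = true`, comes back through a
side `l` with `col (l - 1) = true`, `col l = false`.
-/

namespace Pool.Agent.H68.G

open Pool.Agent.H75.Perc hiding WL CT hh
open Pool.Agent.H75.TwoArm Pool.Agent.H33.Q1 Pool.Agent.H13.W Pool.Agent.H47.W

/-! ### Steps in the tile frame -/

section step

variable {w : Finset (ℤ × ℤ)} {x y : ℤ}

lemma nx_a (h : (x + y) % 2 = 1) : nx w (hz x y) = if lt (x, y - 1) ∈ w then vt x (y - 1) else
    vt (x + 1) (y - 1) := by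
  unfold nx
  rw [(hz_odd h).1]
  unfold nxO nxC hz vt
  have h1 : (x + 1 - y) % 2 = 0 := by omega
  have h2 : (x + 1 + y) % 2 = 0 := by omega
  simp only [h1, h2, if_true]
  split_ifs <;> refine Prod.ext ?_ ?_ <;> simp only <;> ring

lemma nx_b (h : (x + y) % 2 = 0) : nx w (hz x y) = if lt (x, y) ∈ w then vt (x + 1) y else
    vt x y := by
  unfold nx
  rw [(hz_even h).1]
  unfold nxO nxC hz vt
  have h1 : (x + 1 - y) % 2 = 1 := by omega
  have h2 : (x + 1 + y) % 2 = 1 := by omega
  simp only [h1, h2, one_ne_zero, if_false]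
  split_ifs <;> refine Prod.ext ?_ ?_ <;> simp only <;> ring

lemma nx_c (h : (x + y) % 2 = 0) : nx w (vt x y) = if lt (x - 1, y) ∈ w then hz (x - 1) (y + 1) else
    hz (x - 1) y := by
  unfold nx
  rw [(vt_even h).1]
  unfold nxO nxC hz vt
  have h1 : (x - y) % 2 = 0 := by omega
  have h2 : (x + y + 1) % 2 = 1 := by omega
  simp only [h1, h2, one_ne_zero, if_false, if_true]
  split_ifs <;> refine Prod.ext ?_ ?_ <;> simp only <;> ring

lemma nx_d (h : (x + y) % 2 = 1) : nx w (vt x y) = if lt (x, y) ∈ w then hz x y else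
    hz x (y + 1) := by
  unfold nx
  rw [(vt_odd h).1]
  unfold nxO nxC hz vt
  have h1 : (x - y) % 2 = 1 := by omega
  have h2 : (x + y + 1) % 2 = 0 := by omega
  simp only [h1, h2, one_ne_zero, if_false, if_true]
  split_ifs <;> refine Prod.ext ?_ ?_ <;> simp only <;> ring

end step

/-! ### First returns -/

/-- labels outside of the square -/
def Ou (o : ℤ × ℤ) (R : ℤ) : Set (ℤ × ℤ) := {e | ¬ Sq o R (tt e)}

lemma mem_Ou {o : ℤ × ℤ} {R : ℤ} {t : ℤ × ℤ} : lt t ∈ Ou o R ↔ ¬ Sq o R t := by
  unfold Ou; rw [Set.mem_setOf_eq, tt_lt]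

/-- the strand from `c` leaves `Λ` for the first time through `d` -/
def Ret (Λ : Set (ℤ × ℤ)) (w : Finset (ℤ × ℤ)) (c d : ℤ × ℤ) : Prop :=
  ∃ n : ℕ, (nx w)^[n] c = d ∧ lab d ∉ Λ ∧ ∀ i < n, lab ((nx w)^[i] c) ∈ Λ

section ret

variable {Λ : Set (ℤ × ℤ)} {w : Finset (ℤ × ℤ)} {c c' d d' : ℤ × ℤ}

lemma Ret.unique (h : Ret Λ w c d) (h' : Ret Λ w c d') : d = d' := by
  obtain ⟨n, h1, h2, h3⟩ := h
  obtain ⟨n', h1', h2', h3'⟩ := h'
  rcases lt_trichotomy n n' with hn | hn | hn
  · have := h3' n hn
    rw [h1] at this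
    exact absurd this h2
  · rw [← h1, hn, h1']
  · have := h3 n' hn
    rw [h1'] at this
    exact absurd this h2'

/-- **first returns are injective** on the sides which lead into `Λ` -/
lemma Ret.inj (h : Ret Λ w c d) (h' : Ret Λ w c' d) (hc : plab c ∉ Λ) (hc' : plab c' ∉ Λ) :
    c = c' := by
  obtain ⟨n, h1, h2, h3⟩ := h
  obtain ⟨n', h1', h2', h3'⟩ := h'
  have key : ∀ (n k : ℕ) (c c' : ℤ × ℤ), (nx w)^[n] c = (nx w)^[n + k] c' →
      c = (nx w)^[k] c' := by
    intro n
    induction n with
    | zero => intro k c c' h; simpa using h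
    | succ n ih =>
      intro k c c' h
      rw [show n + 1 + k = (n + k) + 1 by ring, Function.iterate_succ_apply',
        Function.iterate_succ_apply'] at h
      exact ih k c c' (nx_injective w h)
  rcases le_total n n' with hn | hn
  · obtain ⟨k, rfl⟩ := Nat.exists_eq_add_of_le hn
    have h4 := key n k c c' (h1.trans h1'.symm)
    rcases Nat.eq_zero_or_pos k with rfl | hk
    · exact h4
    · exfalso
      obtain ⟨k, rfl⟩ := Nat.exists_eq_add_of_lt hk
      rw [zero_add, Function.iterate_succ_apply'] at h4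
      apply hc
      rw [h4, SymmAux.plab_nx' w]
      exact h3' _ (by omega)
  · obtain ⟨k, rfl⟩ := Nat.exists_eq_add_of_le hn
    have h4 := key n' k c' c (h1'.trans h1.symm)
    rcases Nat.eq_zero_or_pos k with rfl | hk
    · exact h4.symm
    · exfalso
      obtain ⟨k, rfl⟩ := Nat.exists_eq_add_of_lt hk
      rw [zero_add, Function.iterate_succ_apply'] at h4
      apply hc'
      rw [h4, SymmAux.plab_nx' w]
      exact h3 _ (by omega)

/-- **first returns exist** -/
lemma exists_ret (w : Finset (ℤ × ℤ)) (hc : plab c ∉ Λ) : ∃ d, Ret Λ w c d := by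
  classical
  obtain ⟨M, hM⟩ := ExitAux.exists_period w c
  have h : ∃ j : ℕ, lab ((nx w)^[j] c) ∉ Λ := by
    refine ⟨M - 1, ?_⟩
    have h1 : nx w ((nx w)^[M - 1] c) = c := by
      rw [← Function.iterate_succ_apply' (nx w), Nat.succ_eq_add_one, Nat.sub_add_cancel hM.pos]
      exact hM.per
    have h2 := SymmAux.plab_nx' w ((nx w)^[M - 1] c)
    rw [h1] at h2
    rw [← h2]
    exact hc
  exact ⟨_, Nat.find h, rfl, Nat.find_spec h, fun i hi => not_not.1 (Nat.find_min h hi)⟩

/-- the strand is a strand of `SG` -/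
lemma Ret.reach (h : Ret Λ w c d) : (SG Λ ∅ w).Reachable c d := by
  obtain ⟨n, h1, -, h3⟩ := h
  have key : ∀ m ≤ n, (SG Λ ∅ w).Reachable c ((nx w)^[m] c) := by
    intro m
    induction m with
    | zero => intro _; exact SimpleGraph.Reachable.refl _
    | succ m ih =>
      intro hm
      refine (ih (by omega)).trans ?_
      rw [Function.iterate_succ_apply']
      refine SimpleGraph.Adj.reachable ⟨lab ((nx w)^[m] c), h3 m (by omega), ?_⟩
      exact Or.inr ⟨Set.notMem_empty _, Or.inl ⟨rfl, rfl⟩⟩
  rw [← h1]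
  exact key n le_rfl

/-- the last tile belongs to `Λ` -/
lemma Ret.plab_mem (h : Ret Λ w c d) (hc : lab c ∈ Λ) : plab d ∈ Λ := by
  obtain ⟨n, h1, h2, h3⟩ := h
  rcases Nat.eq_zero_or_pos n with rfl | hn
  · exact absurd hc (by rw [show c = d by simpa using h1]; exact h2)
  · obtain ⟨n, rfl⟩ := Nat.exists_eq_add_of_lt hn
    rw [zero_add, Function.iterate_succ_apply'] at h1
    rw [← h1, SymmAux.plab_nx' w]
    exact h3 _ (by omega)

end ret

/-! ### Corners -/

/-- tile outside of the corner `pt o R j`, `j` divisible by `2 R` -/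
def tk (o : ℤ × ℤ) (R j : ℤ) : ℤ × ℤ :=
  if j % (8 * R) = 0 then (o.1 - R - 1, o.2 - R - 1) else if j % (8 * R) = 2 * R then
    (o.1 + R, o.2 - R - 1) else if j % (8 * R) = 4 * R then (o.1 + R, o.2 + R)
  else (o.1 - R - 1, o.2 + R)

/-- **The ring of colours around the square.** -/
structure Ring (o : ℤ × ℤ) (R : ℤ) (w : Finset (ℤ × ℤ)) (col : ℤ → Bool) : Prop where
  hR : 0 < R
  ho : (o.1 + o.2) % 2 = 0
  per : ∀ j, col (j + 8 * R) = col j
  side : ∀ j, lt (tu o R j) ∈ w ↔ col j = true
  corner : ∀ j, (j % (8 * R) = 0 ∨ j % (8 * R) = 2 * R ∨ j % (8 * R) = 4 * R ∨ j % (8 * R) = 6 * R) →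
    col (j - 1) = col j ∧ (lt (tk o R j) ∈ w ↔ col j = true)
  even : ∀ j, col (j - 1) ≠ col j → j % 2 = 0

section ring

variable {o : ℤ × ℤ} {R j j' : ℤ} {w : Finset (ℤ × ℤ)} {col : ℤ → Bool}

lemma jpred (hR : 0 < R) (j : ℤ) (h : j % 2 = 1) : (j - 1) % (8 * R) = j % (8 * R) - 1 ∧
    0 ≤ j % (8 * R) - 1 := by
  obtain ⟨h0, h1⟩ := jmod hR j
  have h2 : (j % (8 * R)) % 2 = j % 2 := Int.emod_emod_of_dvd _ ⟨4 * R, by ring⟩
  have e : (j - 1) % (8 * R) = (j % (8 * R) - 1) % (8 * R) := (Int.emod_sub_emod j (8 * R) 1).symm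
  rw [e, Int.emod_eq_of_lt (by omega) (by omega)]
  omega

/-- **open part**: the strand turns back around the face -/
lemma turnO (hR : 0 < R) (ho : (o.1 + o.2) % 2 = 0) (hj : j % 2 = 1) (h1 : lt (tu o R j) ∈ w)
    (h2 : lt (tu o R (j - 1)) ∈ w) : Ret (Ou o R) w (sd o R j) (sd o R (j - 1)) := by
  obtain ⟨h0, h3⟩ := jmod hR j
  have h4 : (j % (8 * R)) % 2 = j % 2 := Int.emod_emod_of_dvd _ ⟨4 * R, by ring⟩
  obtain ⟨e1, e2⟩ := jpred hR j hj
  -- two steps
  have key : lab (nx w (sd o R j)) = lt (tu o R (j - 1)) ∧ nx w (nx w (sd o R j)) = sd o R (j - 1) := by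
    unfold sd tu sdq tuq at *
    rw [e1] at h2 ⊢
    set i := j % (8 * R)
    by_cases a1 : i < 2 * R
    · rw [if_pos a1] at h1 ⊢
      rw [if_pos (by omega : i - 1 < 2 * R)] at h2 ⊢
      rw [if_pos (by omega : i - 1 < 2 * R)]
      rw [nx_a (by omega), if_pos h1]
      have e3 : lt (o.1 - R + i - 1, o.2 - R - 1) = lt (o.1 - R + (i - 1), o.2 - R - 1) := by
        congr 2; ring
      refine ⟨by rw [(vt_even (by omega)).1, e3], ?_⟩
      rw [nx_c (by omega), if_pos (by rw [e3]; exact h2)]
      congr 1 <;> ring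
    · by_cases a2 : i < 4 * R
      · rw [if_neg a1, if_pos a2] at h1 ⊢
        rw [if_neg (by omega : ¬ i - 1 < 2 * R), if_pos (by omega : i - 1 < 4 * R)] at h2 ⊢
        rw [if_neg (by omega : ¬ i - 1 < 2 * R), if_pos (by omega : i - 1 < 4 * R)]
        rw [nx_d (by omega), if_pos h1]
        have e3 : lt (o.1 + R, o.2 + i - 3 * R - 1) = lt (o.1 + R, o.2 + (i - 1) - 3 * R) := by
          congr 2; ring
        refine ⟨by rw [(hz_odd (by omega)).1, e3], ?_⟩
        rw [nx_a (by omega), if_pos (by rw [e3]; exact h2)]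
        congr 1; ring
      · by_cases a3 : i < 6 * R
        · rw [if_neg a1, if_neg a2, if_pos a3] at h1 ⊢
          rw [if_neg (by omega : ¬ i - 1 < 2 * R), if_neg (by omega : ¬ i - 1 < 4 * R),
            if_pos (by omega : i - 1 < 6 * R)] at h2 ⊢
          rw [if_neg (by omega : ¬ i - 1 < 2 * R), if_neg (by omega : ¬ i - 1 < 4 * R),
            if_pos (by omega : i - 1 < 6 * R)]
          rw [nx_b (by omega), if_pos h1]
          have e3 : lt (o.1 + 5 * R - i - 1 + 1, o.2 + R) = lt (o.1 + 5 * R - (i - 1) - 1, o.2 + R) := by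
            congr 2; ring
          refine ⟨by rw [(vt_odd (by omega)).1, e3], ?_⟩
          rw [nx_d (by omega), if_pos (by rw [e3]; exact h2)]
          congr 1; ring
        · rw [if_neg a1, if_neg a2, if_neg a3] at h1 ⊢
          rw [if_neg (by omega : ¬ i - 1 < 2 * R), if_neg (by omega : ¬ i - 1 < 4 * R),
            if_neg (by omega : ¬ i - 1 < 6 * R)] at h2 ⊢
          rw [if_neg (by omega : ¬ i - 1 < 2 * R), if_neg (by omega : ¬ i - 1 < 4 * R),
            if_neg (by omega : ¬ i - 1 < 6 * R)]
          rw [nx_c (by omega), if_pos h1]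
          have e3 : lt (o.1 - R - 1, o.2 + 7 * R - i - 1 + 1) =
              lt (o.1 - R - 1, o.2 + 7 * R - (i - 1) - 1) := by
            congr 2; ring
          refine ⟨by rw [(hz_even (by omega)).1, e3], ?_⟩
          rw [nx_b (by omega), if_pos (by rw [e3]; exact h2)]
          congr 1 <;> ring
  refine ⟨2, key.2, ?_, ?_⟩
  · rw [(plab_sd hR ho (by omega)).2, mem_Ou, not_not]
    exact sq_tn hR _
  · intro i hi
    rcases (show i = 0 ∨ i = 1 by omega) with rfl | rfl
    · show lab (sd o R j) ∈ _
      rw [(lab_sd hR ho hj).1, mem_Ou]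
      exact nsq_tu hR _
    · show lab (nx w (sd o R j)) ∈ _
      rw [key.1, mem_Ou]
      exact nsq_tu hR _

/-- **closed part**: the strand turns back around the vertex -/
lemma turnC (hR : 0 < R) (ho : (o.1 + o.2) % 2 = 0) (hj : j % 2 = 1) (h1 : lt (tu o R j) ∉ w)
    (h2 : lt (tu o R (j + 1)) ∉ w) (hk : ((j + 1) % (8 * R) = 0 ∨ (j + 1) % (8 * R) = 2 * R ∨
      (j + 1) % (8 * R) = 4 * R ∨ (j + 1) % (8 * R) = 6 * R) → lt (tk o R (j + 1)) ∉ w) :
    Ret (Ou o R) w (sd o R j) (sd o R (j + 1)) := by
  obtain ⟨h0, h3⟩ := jmod hR j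
  have h4 : (j % (8 * R)) % 2 = j % 2 := Int.emod_emod_of_dvd _ ⟨4 * R, by ring⟩
  have hend : lab (sd o R (j + 1)) ∉ Ou o R := by
    rw [(plab_sd hR ho (by omega)).2, mem_Ou, not_not]
    exact sq_tn hR _
  have hst : lab (sd o R j) ∈ Ou o R := by
    rw [(lab_sd hR ho hj).1, mem_Ou]
    exact nsq_tu hR _
  have hu1 : lt (tu o R (j + 1)) ∈ Ou o R := by rw [mem_Ou]; exact nsq_tu hR _
  have two : lab (nx w (sd o R j)) = lt (tu o R (j + 1)) → nx w (nx w (sd o R j)) = sd o R (j + 1) →
      Ret (Ou o R) w (sd o R j) (sd o R (j + 1)) := by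
    intro k1 k2
    refine ⟨2, k2, hend, fun i hi => ?_⟩
    rcases (show i = 0 ∨ i = 1 by omega) with rfl | rfl
    · exact hst
    · show lab (nx w (sd o R j)) ∈ _
      rw [k1]; exact hu1
  have three : lab (nx w (sd o R j)) ∈ Ou o R → lab (nx w (nx w (sd o R j))) = lt (tu o R (j + 1)) →
      nx w (nx w (nx w (sd o R j))) = sd o R (j + 1) →
      Ret (Ou o R) w (sd o R j) (sd o R (j + 1)) := by
    intro k0 k1 k2
    refine ⟨3, k2, hend, fun i hi => ?_⟩
    rcases (show i = 0 ∨ i = 1 ∨ i = 2 by omega) with rfl | rfl | rfl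
    · exact hst
    · exact k0
    · show lab (nx w (nx w (sd o R j))) ∈ _
      rw [k1]; exact hu1
  unfold sd tu sdq tuq tk at *
  rcases jsucc hR j with ⟨e1, e2⟩ | ⟨e1, e2⟩
  · rw [e1] at h2 hk two three ⊢
    set i := j % (8 * R)
    by_cases a1 : i < 2 * R
    · rw [if_pos a1] at h1
      rw [if_pos a1] at two three ⊢
      by_cases b1 : i + 1 < 2 * R
      · rw [if_pos b1] at h2
        rw [if_pos b1, if_pos b1] at two
        rw [if_pos b1]
        have e3 : lt (o.1 - R + i + 1, o.2 - R - 1) = lt (o.1 - R + (i + 1), o.2 - R - 1) := by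
          congr 2; ring
        apply two
        · rw [nx_a (by omega), if_neg h1, (vt_odd (by omega)).1, e3]
        · rw [nx_a (by omega), if_neg h1, nx_d (by omega), if_neg (by rw [e3]; exact h2)]
          congr 1 <;> ring
      · have b2 : i + 1 = 2 * R := by omega
        have hk' := hk (Or.inr (Or.inl b2))
        rw [if_neg (by omega : ¬ i + 1 = 0), if_pos b2] at hk'
        rw [if_neg b1, if_pos (by omega : i + 1 < 4 * R)] at h2
        rw [if_neg b1, if_pos (by omega : i + 1 < 4 * R), if_neg b1,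
          if_pos (by omega : i + 1 < 4 * R)] at three
        rw [if_neg b1, if_pos (by omega : i + 1 < 4 * R)]
        have e3 : lt (o.1 - R + i + 1, o.2 - R - 1) = lt (o.1 + R, o.2 - R - 1) := by
          congr 2; omega
        have e4 : lt (o.1 - R + i + 1, o.2 - R - 1 + 1) = lt (o.1 + R, o.2 + (i + 1) - 3 * R) := by
          congr 2 <;> omega
        apply three
        · rw [nx_a (by omega), if_neg h1, (vt_odd (by omega)).1, e3, mem_Ou]
          unfold Sq; simp only; omega
        · rw [nx_a (by omega), if_neg h1, nx_d (by omega), if_neg (by rw [e3]; exact hk'),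
            (hz_even (by omega)).1, e4]
        · rw [nx_a (by omega), if_neg h1, nx_d (by omega), if_neg (by rw [e3]; exact hk'),
            nx_b (by omega), if_neg (by rw [e4]; exact h2)]
          congr 1 <;> omega
    · by_cases a2 : i < 4 * R
      · rw [if_neg a1, if_pos a2] at h1
        rw [if_neg a1, if_pos a2] at two three ⊢
        have c1 : ¬ i + 1 < 2 * R := by omega
        by_cases b1 : i + 1 < 4 * R
        · rw [if_neg c1, if_pos b1] at h2
          rw [if_neg c1, if_pos b1, if_neg c1, if_pos b1] at two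
          rw [if_neg c1, if_pos b1]
          have e3 : lt (o.1 + R, o.2 + i - 3 * R + 1) = lt (o.1 + R, o.2 + (i + 1) - 3 * R) := by
            congr 2; ring
          apply two
          · rw [nx_d (by omega), if_neg h1, (hz_even (by omega)).1, e3]
          · rw [nx_d (by omega), if_neg h1, nx_b (by omega), if_neg (by rw [e3]; exact h2)]
            congr 1 <;> ring
        · have b2 : i + 1 = 4 * R := by omega
          have hk' := hk (Or.inr (Or.inr (Or.inl b2)))
          rw [if_neg (by omega : ¬ i + 1 = 0), if_neg (by omega : ¬ i + 1 = 2 * R), if_pos b2] at hk'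
          rw [if_neg c1, if_neg b1, if_pos (by omega : i + 1 < 6 * R)] at h2
          rw [if_neg c1, if_neg b1, if_pos (by omega : i + 1 < 6 * R), if_neg c1, if_neg b1,
            if_pos (by omega : i + 1 < 6 * R)] at three
          rw [if_neg c1, if_neg b1, if_pos (by omega : i + 1 < 6 * R)]
          have e3 : lt (o.1 + R, o.2 + i - 3 * R + 1) = lt (o.1 + R, o.2 + R) := by
            congr 2; omega
          have e4 : lt (o.1 + R - 1, o.2 + i - 3 * R + 1) =
              lt (o.1 + 5 * R - (i + 1) - 1, o.2 + R) := by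
            congr 2 <;> omega
          apply three
          · rw [nx_d (by omega), if_neg h1, (hz_even (by omega)).1, e3, mem_Ou]
            unfold Sq; simp only; omega
          · rw [nx_d (by omega), if_neg h1, nx_b (by omega), if_neg (by rw [e3]; exact hk'),
              (vt_even (by omega)).1, e4]
          · rw [nx_d (by omega), if_neg h1, nx_b (by omega), if_neg (by rw [e3]; exact hk'),
              nx_c (by omega), if_neg (by rw [e4]; exact h2)]
            congr 1 <;> omega
      · by_cases a3 : i < 6 * R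
        · rw [if_neg a1, if_neg a2, if_pos a3] at h1
          rw [if_neg a1, if_neg a2, if_pos a3] at two three ⊢
          have c1 : ¬ i + 1 < 2 * R := by omega
          have c2 : ¬ i + 1 < 4 * R := by omega
          by_cases b1 : i + 1 < 6 * R
          · rw [if_neg c1, if_neg c2, if_pos b1] at h2
            rw [if_neg c1, if_neg c2, if_pos b1, if_neg c1, if_neg c2, if_pos b1] at two
            rw [if_neg c1, if_neg c2, if_pos b1]
            have e3 : lt (o.1 + 5 * R - i - 1 - 1, o.2 + R) =
                lt (o.1 + 5 * R - (i + 1) - 1, o.2 + R) := by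
              congr 2; ring
            apply two
            · rw [nx_b (by omega), if_neg h1, (vt_even (by omega)).1, e3]
            · rw [nx_b (by omega), if_neg h1, nx_c (by omega), if_neg (by rw [e3]; exact h2)]
              congr 1 <;> ring
          · have b2 : i + 1 = 6 * R := by omega
            have hk' := hk (Or.inr (Or.inr (Or.inr b2)))
            rw [if_neg (by omega : ¬ i + 1 = 0), if_neg (by omega : ¬ i + 1 = 2 * R),
              if_neg (by omega : ¬ i + 1 = 4 * R)] at hk'
            rw [if_neg c1, if_neg c2, if_neg b1] at h2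
            rw [if_neg c1, if_neg c2, if_neg b1, if_neg c1, if_neg c2, if_neg b1] at three
            rw [if_neg c1, if_neg c2, if_neg b1]
            have e3 : lt (o.1 + 5 * R - i - 1 - 1, o.2 + R) = lt (o.1 - R - 1, o.2 + R) := by
              congr 2; omega
            have e4 : lt (o.1 + 5 * R - i - 1 - 1, o.2 + R - 1) =
                lt (o.1 - R - 1, o.2 + 7 * R - (i + 1) - 1) := by
              congr 2 <;> omega
            apply three
            · rw [nx_b (by omega), if_neg h1, (vt_even (by omega)).1, e3, mem_Ou]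
              unfold Sq; simp only; omega
            · rw [nx_b (by omega), if_neg h1, nx_c (by omega), if_neg (by rw [e3]; exact hk'),
                (hz_odd (by omega)).1, e4]
            · rw [nx_b (by omega), if_neg h1, nx_c (by omega), if_neg (by rw [e3]; exact hk'),
                nx_a (by omega), if_neg (by rw [e4]; exact h2)]
              congr 1 <;> omega
        · rw [if_neg a1, if_neg a2, if_neg a3] at h1
          rw [if_neg a1, if_neg a2, if_neg a3] at two three ⊢
          have c1 : ¬ i + 1 < 2 * R := by omega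
          have c2 : ¬ i + 1 < 4 * R := by omega
          have c3 : ¬ i + 1 < 6 * R := by omega
          rw [if_neg c1, if_neg c2, if_neg c3] at h2
          rw [if_neg c1, if_neg c2, if_neg c3, if_neg c1, if_neg c2, if_neg c3] at two
          rw [if_neg c1, if_neg c2, if_neg c3]
          have e3 : lt (o.1 - R - 1, o.2 + 7 * R - i - 1 - 1) =
              lt (o.1 - R - 1, o.2 + 7 * R - (i + 1) - 1) := by
            congr 2; ring
          apply two
          · rw [nx_c (by omega), if_neg h1, (hz_odd (by omega)).1, e3]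
          · rw [nx_c (by omega), if_neg h1, nx_a (by omega), if_neg (by rw [e3]; exact h2)]
            congr 1 <;> ring
  · rw [e1] at h2 hk two three ⊢
    rw [e2] at h1 h4 two three ⊢
    have hk' := hk (Or.inl rfl)
    rw [if_pos rfl] at hk'
    have d1 : ¬ 8 * R - 1 < 2 * R := by omega
    have d2 : ¬ 8 * R - 1 < 4 * R := by omega
    have d3 : ¬ 8 * R - 1 < 6 * R := by omega
    have d4 : (0 : ℤ) < 2 * R := by omega
    rw [if_neg d1, if_neg d2, if_neg d3] at h1
    rw [if_pos d4] at h2
    rw [if_neg d1, if_neg d2, if_neg d3, if_pos d4, if_pos d4] at three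
    rw [if_neg d1, if_neg d2, if_neg d3, if_pos d4]
    have e3 : lt (o.1 - R - 1, o.2 + 7 * R - (8 * R - 1) - 1 - 1) = lt (o.1 - R - 1, o.2 - R - 1) := by
      congr 2; omega
    have e4 : lt (o.1 - R, o.2 + 7 * R - (8 * R - 1) - 1 - 1) = lt (o.1 - R + 0, o.2 - R - 1) := by
      congr 2 <;> omega
    apply three
    · rw [nx_c (by omega), if_neg h1, (hz_odd (by omega)).1, e3, mem_Ou]
      unfold Sq; simp only; omega
    · rw [nx_c (by omega), if_neg h1, nx_a (by omega), if_neg (by rw [e3]; exact hk'),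
        show o.1 - R - 1 + 1 = o.1 - R by ring, (vt_odd (by omega)).1, e4]
    · rw [nx_c (by omega), if_neg h1, nx_a (by omega), if_neg (by rw [e3]; exact hk'),
        show o.1 - R - 1 + 1 = o.1 - R by ring, nx_d (by omega), if_neg (by rw [e4]; exact h2)]
      congr 1 <;> omega

/-- a side where the strand enters the square -/
lemma exists_sd (hR : 0 < R) {d : ℤ × ℤ} (h1 : lab d ∉ Ou o R) (h2 : plab d ∈ Ou o R)
    (ho : (o.1 + o.2) % 2 = 0) : ∃ l, l % 2 = 0 ∧ d = sd o R l := by
  obtain ⟨x, y, rfl⟩ | ⟨x, y, rfl⟩ := hz_or_vt d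
  · rcases Int.emod_two_eq_zero_or_one (x + y) with h | h
    · rw [(hz_even h).1, mem_Ou, not_not] at h1
      rw [(hz_even h).2, mem_Ou] at h2
      unfold Sq at h1 h2
      simp only at h1 h2
      refine ⟨x - o.1 + R, by omega, ?_⟩
      unfold sd sdq
      rw [Int.emod_eq_of_lt (by omega) (by omega), if_pos (by omega)]
      congr 1 <;> omega
    · rw [(hz_odd h).1, mem_Ou, not_not] at h1
      rw [(hz_odd h).2, mem_Ou] at h2
      unfold Sq at h1 h2
      simp only at h1 h2
      refine ⟨o.1 + 5 * R - x - 1, by omega, ?_⟩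
      unfold sd sdq
      rw [Int.emod_eq_of_lt (by omega) (by omega), if_neg (by omega), if_neg (by omega),
        if_pos (by omega)]
      congr 1 <;> omega
  · rcases Int.emod_two_eq_zero_or_one (x + y) with h | h
    · rw [(vt_even h).1, mem_Ou, not_not] at h1
      rw [(vt_even h).2, mem_Ou] at h2
      unfold Sq at h1 h2
      simp only at h1 h2
      refine ⟨y - o.2 + 3 * R, by omega, ?_⟩
      unfold sd sdq
      rw [Int.emod_eq_of_lt (by omega) (by omega), if_neg (by omega), if_pos (by omega)]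
      congr 1 <;> omega
    · rw [(vt_odd h).1, mem_Ou, not_not] at h1
      rw [(vt_odd h).2, mem_Ou] at h2
      unfold Sq at h1 h2
      simp only at h1 h2
      refine ⟨o.2 + 7 * R - y - 1, by omega, ?_⟩
      unfold sd sdq
      rw [Int.emod_eq_of_lt (by omega) (by omega), if_neg (by omega), if_neg (by omega),
        if_neg (by omega)]
      congr 1 <;> omega

/-- a side where the strand leaves the square -/
lemma exists_sd' (hR : 0 < R) {d : ℤ × ℤ} (h1 : plab d ∉ Ou o R) (h2 : lab d ∈ Ou o R)
    (ho : (o.1 + o.2) % 2 = 0) : ∃ l, l % 2 = 1 ∧ d = sd o R l := by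
  obtain ⟨x, y, rfl⟩ | ⟨x, y, rfl⟩ := hz_or_vt d
  · rcases Int.emod_two_eq_zero_or_one (x + y) with h | h
    · rw [(hz_even h).2, mem_Ou, not_not] at h1
      rw [(hz_even h).1, mem_Ou] at h2
      unfold Sq at h1 h2
      simp only at h1 h2
      refine ⟨o.1 + 5 * R - x - 1, by omega, ?_⟩
      unfold sd sdq
      rw [Int.emod_eq_of_lt (by omega) (by omega), if_neg (by omega), if_neg (by omega),
        if_pos (by omega)]
      congr 1 <;> omega
    · rw [(hz_odd h).2, mem_Ou, not_not] at h1
      rw [(hz_odd h).1, mem_Ou] at h2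
      unfold Sq at h1 h2
      simp only at h1 h2
      refine ⟨x - o.1 + R, by omega, ?_⟩
      unfold sd sdq
      rw [Int.emod_eq_of_lt (by omega) (by omega), if_pos (by omega)]
      congr 1 <;> omega
  · rcases Int.emod_two_eq_zero_or_one (x + y) with h | h
    · rw [(vt_even h).2, mem_Ou, not_not] at h1
      rw [(vt_even h).1, mem_Ou] at h2
      unfold Sq at h1 h2
      simp only at h1 h2
      refine ⟨o.2 + 7 * R - y - 1, by omega, ?_⟩
      unfold sd sdq
      rw [Int.emod_eq_of_lt (by omega) (by omega), if_neg (by omega), if_neg (by omega),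
        if_neg (by omega)]
      congr 1 <;> omega
    · rw [(vt_odd h).2, mem_Ou, not_not] at h1
      rw [(vt_odd h).1, mem_Ou] at h2
      unfold Sq at h1 h2
      simp only at h1 h2
      refine ⟨y - o.2 + 3 * R, by omega, ?_⟩
      unfold sd sdq
      rw [Int.emod_eq_of_lt (by omega) (by omega), if_neg (by omega), if_pos (by omega)]
      congr 1 <;> omega

/-- sides leading outwards -/
lemma out_odd (hR : 0 < R) (ho : (o.1 + o.2) % 2 = 0) (hj : j % 2 = 1) :
    lab (sd o R j) ∈ Ou o R ∧ plab (sd o R j) ∉ Ou o R := by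
  rw [(lab_sd hR ho hj).1, (lab_sd hR ho hj).2, mem_Ou, mem_Ou, not_not]
  exact ⟨nsq_tu hR _, sq_tn hR _⟩

/-- sides leading inwards -/
lemma in_even (hR : 0 < R) (ho : (o.1 + o.2) % 2 = 0) (hj : j % 2 = 0) :
    lab (sd o R j) ∉ Ou o R ∧ plab (sd o R j) ∈ Ou o R := by
  rw [(plab_sd hR ho hj).1, (plab_sd hR ho hj).2, mem_Ou, mem_Ou, not_not]
  exact ⟨sq_tn hR _, nsq_tu hR _⟩

lemma Ring.pair_open (h : Ring o R w col) (hj : j % 2 = 1) (hc : col j = true) :
    Ret (Ou o R) w (sd o R j) (sd o R (j - 1)) := by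
  have h1 : col (j - 1) = col j := by
    by_contra h2
    have := h.even j h2
    omega
  exact turnO h.hR h.ho hj ((h.side j).2 hc) ((h.side (j - 1)).2 (h1.trans hc))

lemma Ring.pair_closed (h : Ring o R w col) (hj : j % 2 = 1) (hc : col j = false)
    (hc' : col (j + 1) = false) : Ret (Ou o R) w (sd o R j) (sd o R (j + 1)) := by
  refine turnC h.hR h.ho hj (fun k => ?_) (fun k => ?_) (fun k g => ?_)
  · rw [h.side, hc] at k; exact absurd k (by simp)
  · rw [h.side, hc'] at k; exact absurd k (by simp)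
  · have := ((h.corner (j + 1) k).2).1 g
    rw [hc'] at this; exact absurd this (by simp)

lemma Ring.per' (h : Ring o R w col) {j j' : ℤ} (hj : j % (8 * R) = j' % (8 * R)) : col j = col j' := by
  have key : ∀ (n : ℕ) j, col (j + 8 * R * n) = col j := by
    intro n
    induction n with
    | zero => intro j; simp
    | succ n ih =>
      intro j
      rw [show j + 8 * R * ((n + 1 : ℕ) : ℤ) = j + 8 * R * n + 8 * R by push_cast; ring, h.per, ih]
  obtain ⟨k, hk⟩ : (8 * R) ∣ j - j' :=
    Int.dvd_of_emod_eq_zero (Int.emod_eq_emod_iff_emod_sub_eq_zero.1 hj)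
  rcases le_total 0 k with h0 | h0
  · have e : j = j' + 8 * R * (k.toNat : ℤ) := by rw [Int.toNat_of_nonneg h0]; linarith
    rw [e, key]
  · have e : j' = j + 8 * R * ((-k).toNat : ℤ) := by
      rw [Int.toNat_of_nonneg (by omega)]; linarith
    rw [e, key]

lemma mod_shift (h : j % (8 * R) = j' % (8 * R)) (a : ℤ) : (j + a) % (8 * R) = (j' + a) % (8 * R) := by
  rw [Int.add_emod, h, ← Int.add_emod]

/-- **START leads to END.** -/
theorem Ring.ret_start (h : Ring o R w col) (h0 : col (j - 1) = false) (h1 : col j = true) :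
    ∃ l, Ret (Ou o R) w (sd o R (j - 1)) (sd o R l) ∧ col (l - 1) = true ∧ col l = false := by
  have hj : j % 2 = 0 := h.even j (by rw [h0, h1]; simp)
  obtain ⟨k1, k2⟩ := out_odd h.hR h.ho (j := j - 1) (by omega)
  obtain ⟨d, hd⟩ := exists_ret w k2
  have hl : lab d ∉ Ou o R := by obtain ⟨n, -, h3, -⟩ := hd; exact h3
  obtain ⟨l, hl2, rfl⟩ := exists_sd h.hR hl (hd.plab_mem k1) h.ho
  refine ⟨l, hd, ?_⟩
  -- the side `l` is not open
  have hcl : col l = false := by
    by_contra hc
    have hc : col l = true := by simpa using hc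
    have hc2 : col (l + 1) = true := by
      by_contra hc3
      have := h.even (l + 1) (by rw [add_sub_cancel_right, hc]; exact fun h4 => hc3 h4.symm)
      omega
    have h3 := h.pair_open (j := l + 1) (by omega) hc2
    rw [add_sub_cancel_right] at h3
    have h4 := hd.inj h3 k2 (out_odd h.hR h.ho (j := l + 1) (by omega)).2
    have h5 := h.per' (sd_inj h.hR h4)
    rw [h0, hc2] at h5
    exact absurd h5 (by simp)
  refine ⟨?_, hcl⟩
  by_contra hc
  have hc : col (l - 1) = false := by simpa using hc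
  have h3 := h.pair_closed (j := l - 1) (by omega) hc (by rw [sub_add_cancel]; exact hcl)
  rw [sub_add_cancel] at h3
  have h4 := hd.inj h3 k2 (out_odd h.hR h.ho (j := l - 1) (by omega)).2
  have h5 := h.per' (mod_shift (sd_inj h.hR h4) 1)
  rw [sub_add_cancel, sub_add_cancel, h1, hcl] at h5
  exact absurd h5 (by simp)

/-- **every END is reached.** -/
theorem Ring.ret_end (h : Ring o R w col) {l : ℤ} (h0 : col (l - 1) = true) (h1 : col l = false) :
    ∃ j, Ret (Ou o R) w (sd o R (j - 1)) (sd o R l) ∧ col (j - 1) = false ∧ col j = true := by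
  classical
  have hl : l % 2 = 0 := h.even l (by rw [h0, h1]; simp)
  obtain ⟨k1, k2⟩ := in_even h.hR h.ho hl
  -- backwards
  obtain ⟨M, hM⟩ := ExitAux.exists_period w (sd o R l)
  set d := sd o R l with hd
  have hex : ∃ m : ℕ, m ≤ M ∧ plab ((nx w)^[M - m] d) ∉ Ou o R := by
    refine ⟨M - 1, by omega, ?_⟩
    have hpos := hM.pos
    rw [show M - (M - 1) = 0 + 1 by omega, Function.iterate_succ_apply']
    show plab (nx w d) ∉ _
    rw [SymmAux.plab_nx' w]
    exact k1
  set m := Nat.find hex with hm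
  obtain ⟨hm1, hm2⟩ := Nat.find_spec hex
  rw [← hm] at hm1 hm2
  have hm0 : 0 < m := by
    rcases Nat.eq_zero_or_pos m with h3 | h3
    · rw [h3, Nat.sub_zero, hM.per] at hm2
      exact absurd k2 hm2
    · exact h3
  set c := (nx w)^[M - m] d with hc
  have hit : ∀ i ≤ m, (nx w)^[i] c = (nx w)^[M - (m - i)] d := by
    intro i hi
    rw [hc, ← Function.iterate_add_apply]
    congr 1
    omega
  have hin : ∀ i < m, lab ((nx w)^[i] c) ∈ Ou o R := by
    intro i hi
    have h3 := Nat.find_min hex (m := m - (i + 1)) (by omega)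
    rw [not_and] at h3
    have h4 := h3 (by omega)
    rw [not_not, ← hit (i + 1) (by omega), Function.iterate_succ_apply', SymmAux.plab_nx' w] at h4
    exact h4
  have hret : Ret (Ou o R) w c d := by
    refine ⟨m, ?_, k1, hin⟩
    rw [hit m le_rfl, Nat.sub_self, Nat.sub_zero, hM.per]
  obtain ⟨j, hj, hj2⟩ := exists_sd' h.hR hm2 (hin 0 hm0) h.ho
  rw [hj2] at hret
  have hcj : col j = false := by
    by_contra hcj
    have hcj : col j = true := by simpa using hcj
    have h3 := hret.unique (h.pair_open hj hcj)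
    have h4 := h.per' (sd_inj h.hR h3)
    have h5 : col (j - 1) = col j := by
      by_contra h6
      have := h.even j h6
      omega
    rw [h1, h5, hcj] at h4
    exact absurd h4 (by simp)
  have hcj' : col (j + 1) = true := by
    by_contra hcj'
    have hcj' : col (j + 1) = false := by simpa using hcj'
    have h3 := hret.unique (h.pair_closed hj hcj hcj')
    have h4 := h.per' (mod_shift (sd_inj h.hR h3) (-1))
    rw [← sub_eq_add_neg, h0, add_neg_cancel_right, hcj] at h4
    exact absurd h4 (by simp)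
  exact ⟨j + 1, by rw [add_sub_cancel_right]; exact hret, by rw [add_sub_cancel_right]; exact hcj, hcj'⟩

/-- **The returns do not cross.** `j1 < j2`: STARTs, `l1`, `l2` the ends, in one period from `a`. -/
theorem Ring.nc (h : Ring o R w col) {j1 j2 j3 j4 : ℤ} (h12 : j1 < j2)
    (h23 : j2 < j3) (h34 : j3 < j4) (h41 : j4 < j1 + 8 * R)
    (hr : Ret (Ou o R) w (sd o R j1) (sd o R j3) ∨ Ret (Ou o R) w (sd o R j3) (sd o R j1))
    (hr' : Ret (Ou o R) w (sd o R j2) (sd o R j4) ∨ Ret (Ou o R) w (sd o R j4) (sd o R j2)) :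
    False := by
  refine sq_nc h.hR h.ho (fun t ht => ?_) (fun j => ?_) h12 h23 h34 h41 ?_ ?_ (w := w) (Λ := Ou o R)
  · rw [mem_Ou, not_not]; exact ht
  · rw [mem_Ou]; exact nsq_tu h.hR j
  · rcases hr with hr | hr
    · exact hr.reach
    · exact hr.reach.symm
  · rcases hr' with hr | hr
    · exact hr.reach
    · exact hr.reach.symm

end ring

end Pool.Agent.H68.G
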