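import Mathlib
import Pool.Agent.H68.G.RingM
import Pool.Agent.H65.G.Room

set_option autoImplicit false
open Finset

/-!
# The plates on the ring around the square (Route W, W-G, R3b)

`R = n N - 2`. `cl n o t` : cell of the tile `t` (`o` = tile coordinates of the centre). `plt p` : the plate
number `p` (period `8 n2`, counterclockwise from the lower left corner), `J n p` : first side of the ring
next to the plate `p`. `rg_tu` : the outer tiles of the sides `J p ≤ j < J (p + 1)` belong to the plate `p`.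
`ring_of` : instance of `Ring`.
-/

namespace Pool.Agent.H65.G

namespace RG

variable (D : RG)

/-- plate number `p` -/
def plt (p : ℤ) : ℕ × ℤ :=
  ((p % (8 * D.n2) / (2 * D.n2)).toNat, p % (2 * D.n2) - D.n2)

/-- radius of the square in tiles -/
def Rr (n : ℤ) : ℤ := n * D.N - 2

/-- first side next to the plate `p` -/
def J (n p : ℤ) : ℤ :=
  2 * D.Rr n * (p / (2 * D.n2)) +
    (if p % (2 * D.n2) = 0 then n * D.τ - 2 else n * D.M * (p % (2 * D.n2)) - 2)

end RG

end Pool.Agent.H65.G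

namespace Pool.Agent.H68.G

open Pool.Agent.H75.Perc hiding WL CT hh
open Pool.Agent.H75.TwoArm Pool.Agent.H13.W Pool.Agent.H47.W
open Pool.Agent.H33.Q1 hiding rc
open Pool.Agent.H65.G
open Pool.Agent.H50.W (dv)
open Pool.Agent.Q1.M4 (Cell)

/-- cell of a tile, centre `o` -/
def cl (n : ℤ) (o t : ℤ × ℤ) : Cell := ((t.1 - o.1) / n, (t.2 - o.2) / n)

section plates

variable {D : RG} {n : ℤ} {o : ℤ × ℤ} {p j : ℤ}

lemma J_add : D.J n (p + 8 * D.n2) = D.J n p + 8 * D.Rr n := by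
  have hn := D.n2Z
  unfold RG.J
  have e1 : (p + 8 * D.n2) / (2 * D.n2) = p / (2 * D.n2) + 4 := by
    rw [show p + 8 * (D.n2 : ℤ) = p + 4 * (2 * D.n2) by ring, Int.add_mul_ediv_right _ _ (by omega)]
  have e2 : (p + 8 * D.n2) % (2 * D.n2) = p % (2 * D.n2) := by
    rw [show p + 8 * (D.n2 : ℤ) = p + 2 * D.n2 * 4 by ring, Int.add_mul_emod_self_left]
  rw [e1, e2]
  ring

lemma plt_add : D.plt (p + 8 * D.n2) = D.plt p := by
  unfold RG.plt
  have e2 : (p + 8 * D.n2) % (2 * D.n2) = p % (2 * D.n2) := by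
    rw [show p + 8 * (D.n2 : ℤ) = p + 2 * D.n2 * 4 by ring, Int.add_mul_emod_self_left]
  rw [e2, Int.add_emod_right]

/-- decomposition of a plate number -/
lemma p_dec (p : ℤ) : ∃ k i : ℤ, p = 2 * D.n2 * k + i ∧ 0 ≤ i ∧ i < 2 * D.n2 ∧ p / (2 * D.n2) = k ∧
    p % (2 * D.n2) = i := by
  have hn := D.n2Z
  refine ⟨p / (2 * D.n2), p % (2 * D.n2), (Int.mul_ediv_add_emod p _).symm, Int.emod_nonneg _ (by omega),
    Int.emod_lt_of_pos _ (by omega), rfl, rfl⟩

/-- basic inequalities -/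
lemma nM (hn : 8 ≤ n) : n * D.τ + 8 ≤ n * D.M ∧ 8 ≤ n * D.τ ∧ n * D.N = n * D.M * D.n2 ∧
    2 * (n * D.M) ≤ n * D.N := by
  have h1 := D.n2Z
  have h2 := D.thinZ
  have h3 := D.τZ
  have h4 := D.NZ
  have h5 := D.NM
  refine ⟨?_, ?_, by rw [h4]; ring, ?_⟩
  · have : n * (D.τ + 1) ≤ n * D.M := mul_le_mul_of_nonneg_left (by omega) (by omega)
    linarith
  · have : n * 1 ≤ n * D.τ := mul_le_mul_of_nonneg_left (by omega) (by omega)
    linarith
  · have : n * (2 * D.M) ≤ n * D.N := mul_le_mul_of_nonneg_left (by omega) (by omega)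
    linarith

lemma Rr_pos (hn : 8 ≤ n) : 0 < D.Rr n := by
  obtain ⟨h1, h2, h3, h4⟩ := nM (D := D) hn
  unfold RG.Rr
  omega

lemma J_lt (hn : 8 ≤ n) (p : ℤ) : D.J n p < D.J n (p + 1) := by
  have h0 := D.n2Z
  obtain ⟨h1, h2, h3, h4⟩ := nM (D := D) hn
  obtain ⟨k, i, e, i0, i1, e1, e2⟩ := p_dec (D := D) p
  unfold RG.J RG.Rr
  rw [e1, e2]
  by_cases hi : i + 1 < 2 * D.n2
  · have e3 : (p + 1) / (2 * D.n2) = k := by
      rw [e, show 2 * (D.n2 : ℤ) * k + i + 1 = i + 1 + k * (2 * D.n2) by ring,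
        Int.add_mul_ediv_right _ _ (by omega), Int.ediv_eq_zero_of_lt (by omega) hi, zero_add]
    have e4 : (p + 1) % (2 * D.n2) = i + 1 := by
      rw [e, show 2 * (D.n2 : ℤ) * k + i + 1 = i + 1 + 2 * D.n2 * k by ring,
        Int.add_mul_emod_self_left, Int.emod_eq_of_lt (by omega) hi]
    rw [e3, e4, if_neg (by omega : ¬ i + 1 = 0)]
    have e5 : n * D.M * (i + 1) = n * D.M * i + n * D.M := by ring
    by_cases hi0 : i = 0
    · rw [if_pos hi0, e5, hi0, mul_zero]
      omega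
    · rw [if_neg hi0, e5]
      omega
  · have hi' : i = 2 * D.n2 - 1 := by omega
    have e3 : (p + 1) / (2 * D.n2) = k + 1 := by
      rw [e, hi', show 2 * (D.n2 : ℤ) * k + (2 * D.n2 - 1) + 1 = 0 + (k + 1) * (2 * D.n2) by ring,
        Int.add_mul_ediv_right _ _ (by omega), Int.zero_ediv, zero_add]
    have e4 : (p + 1) % (2 * D.n2) = 0 := by
      rw [e, hi', show 2 * (D.n2 : ℤ) * k + (2 * D.n2 - 1) + 1 = 2 * D.n2 * (k + 1) by ring,
        Int.mul_emod_right]
    rw [e3, e4, if_pos rfl, if_neg (by omega : ¬ i = 0), hi']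
    have e5 : n * D.M * (2 * D.n2 - 1) = 2 * (n * D.M * D.n2) - n * D.M := by ring
    rw [e5, ← h3]
    have e6 : 2 * (n * D.N - 2) * (k + 1) = 2 * (n * D.N - 2) * k + 2 * (n * D.N - 2) := by ring
    rw [e6]
    omega

lemma J_mono (hn : 8 ≤ n) {p q : ℤ} (h : p < q) : D.J n p < D.J n q := by
  obtain ⟨k, hk⟩ : ∃ k : ℕ, q = p + (k + 1 : ℕ) := ⟨(q - p - 1).toNat, by
    push_cast; rw [Int.toNat_of_nonneg (by omega)]; ring⟩
  subst hk
  clear h
  induction k with
  | zero => simpa using J_lt hn p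
  | succ k ih =>
    refine ih.trans ?_
    have := J_lt (D := D) hn (p + (k + 1 : ℕ))
    rw [add_assoc] at this
    push_cast at this ⊢
    exact this

lemma J_le (hn : 8 ≤ n) {p q : ℤ} (h : p ≤ q) : D.J n p ≤ D.J n q := by
  rcases eq_or_lt_of_le h with h | h
  · rw [h]
  · exact (J_mono hn h).le

lemma J_even (hn : n % 2 = 0) (p : ℤ) : D.J n p % 2 = 0 := by
  obtain ⟨m, rfl⟩ := Int.dvd_of_emod_eq_zero hn
  unfold RG.J
  have e1 : 2 * m * (D.τ : ℤ) - 2 = 2 * (m * D.τ - 1) := by ring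
  have e2 : 2 * m * (D.M : ℤ) * (p % (2 * D.n2)) - 2 = 2 * (m * D.M * (p % (2 * D.n2)) - 1) := by ring
  rw [e1, e2]
  split_ifs
  · rw [mul_assoc, ← mul_add, Int.mul_emod_right]
  · rw [mul_assoc, ← mul_add, Int.mul_emod_right]

/-- **every side is next to a plate** -/
lemma exists_J (hn : 8 ≤ n) (j : ℤ) : ∃ p, D.J n p ≤ j ∧ j < D.J n (p + 1) := by
  -- bounded above and unbounded
  have hR := Rr_pos (D := D) hn
  have up : ∀ m : ℕ, D.J n 0 + 8 * D.Rr n * m = D.J n (8 * D.n2 * m) := by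
    intro m
    induction m with
    | zero => simp
    | succ m ih =>
      rw [show (8 : ℤ) * D.n2 * ((m + 1 : ℕ) : ℤ) = 8 * D.n2 * m + 8 * D.n2 by push_cast; ring, J_add,
        ← ih]
      push_cast; ring
  have dn : ∀ m : ℕ, D.J n 0 - 8 * D.Rr n * m = D.J n (-(8 * D.n2 * m)) := by
    intro m
    induction m with
    | zero => simp
    | succ m ih =>
      have h1 := J_add (D := D) (n := n) (p := -(8 * (D.n2 : ℤ) * ((m + 1 : ℕ) : ℤ)))
      rw [show -(8 * (D.n2 : ℤ) * ((m + 1 : ℕ) : ℤ)) + 8 * D.n2 = -(8 * D.n2 * m) by push_cast; ring,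
        ← ih] at h1
      push_cast at h1 ⊢
      linarith
  obtain ⟨a, ha⟩ : ∃ a, D.J n a ≤ j := by
    refine ⟨-(8 * D.n2 * ((|j - D.J n 0|.toNat : ℕ) : ℤ)), ?_⟩
    rw [← dn, Int.toNat_of_nonneg (abs_nonneg _)]
    have h1 := abs_nonneg (j - D.J n 0)
    have h2 := neg_abs_le (j - D.J n 0)
    nlinarith
  obtain ⟨b, hb⟩ : ∃ b, j < D.J n b := by
    refine ⟨8 * D.n2 * ((|j - D.J n 0|.toNat + 1 : ℕ) : ℤ), ?_⟩
    rw [← up]
    push_cast
    rw [Int.toNat_of_nonneg (abs_nonneg _)]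
    have h1 := abs_nonneg (j - D.J n 0)
    have h2 := le_abs_self (j - D.J n 0)
    nlinarith
  have hb' : ∀ z, D.J n z ≤ j → z ≤ b := by
    intro z hz
    by_contra h
    have := J_le (D := D) hn (show b ≤ z by omega)
    omega
  obtain ⟨p, hp1, hp2⟩ := Int.exists_greatest_of_bdd ⟨b, hb'⟩ ⟨a, ha⟩
  refine ⟨p, hp1, ?_⟩
  by_contra h
  have := hp2 (p + 1) (by omega)
  omega

/-! ### Rotation -/

/-- rotation of tiles around the centre -/
lemma cl_rc (hn : 0 < n) (t : ℤ × ℤ) : cl n 0 (rc t) = rc (cl n 0 t) := by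
  unfold cl rc
  simp only [Prod.fst_zero, Prod.snd_zero, sub_zero]
  refine Prod.ext ?_ rfl
  simp only
  rw [show -1 - t.2 = -(t.2 + 1) by ring]
  have h1 := Int.emod_nonneg t.2 hn.ne'
  have h2 := Int.emod_lt_of_pos t.2 hn
  have h3 := Int.mul_ediv_add_emod t.2 n
  have : (-(t.2 + 1)) / n = -1 - t.2 / n := by
    rw [dv hn]
    constructor
    · have e : n * (-1 - t.2 / n) = -n - n * (t.2 / n) := by ring
      rw [e]; omega
    · have e : n * (-1 - t.2 / n) = -n - n * (t.2 / n) := by ring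
      rw [e]; omega
  exact this

lemma cl_iter (hn : 0 < n) (m : ℕ) (t : ℤ × ℤ) : cl n o (o + rc^[m] t) = rc^[m] (cl n 0 t) := by
  have h1 : cl n o (o + rc^[m] t) = cl n 0 (rc^[m] t) := by
    unfold cl
    simp only [Prod.fst_add, Prod.snd_add, Prod.fst_zero, Prod.snd_zero, sub_zero,
      add_sub_cancel_left]
  rw [h1]
  clear h1
  induction m generalizing t with
  | zero => rfl
  | succ m ih => rw [Function.iterate_succ_apply, Function.iterate_succ_apply, ih, cl_rc hn]

/-- outer tile of a side, frame of the side -/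
def Tq (R r : ℤ) : ℤ × ℤ := if r < 2 * R then (r - R, -R - 1) else (R, r - 3 * R)

lemma rc4 (t : ℤ × ℤ) : rc^[4] t = t := by
  show rc (rc (rc (rc t))) = t
  unfold rc
  refine Prod.ext ?_ ?_ <;> simp only <;> ring

/-- **outer tiles by rotation** -/
lemma tu_rc {R : ℤ} (hR : 0 < R) (k : ℤ) {r : ℤ} (h0 : 0 ≤ r) (h1 : r < 2 * R) :
    tu o R (2 * R * k + r) = o + rc^[(k % 4).toNat] (r - R, -R - 1) := by
  have hk0 := Int.emod_nonneg k (show (4 : ℤ) ≠ 0 by norm_num)
  have hk1 := Int.emod_lt_of_pos k (show (0 : ℤ) < 4 by norm_num)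
  have hk2 := Int.mul_ediv_add_emod k 4
  have e : (2 * R * k + r) % (8 * R) = 2 * R * (k % 4) + r := by
    have e1 : 2 * R * k + r = 2 * R * (k % 4) + r + 8 * R * (k / 4) := by
      nth_rewrite 1 [← hk2]; ring
    rw [e1, Int.add_mul_emod_self_left]
    rcases (show k % 4 = 0 ∨ k % 4 = 1 ∨ k % 4 = 2 ∨ k % 4 = 3 by omega) with h | h | h | h <;>
      rw [h] <;> exact Int.emod_eq_of_lt (by omega) (by omega)
  unfold tu tuq
  rw [e]
  rcases (show k % 4 = 0 ∨ k % 4 = 1 ∨ k % 4 = 2 ∨ k % 4 = 3 by omega) with h | h | h | h <;> rw [h]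
  · rw [if_pos (by omega)]
    show _ = o + (r - R, -R - 1)
    refine Prod.ext ?_ ?_ <;> simp only [Prod.fst_add, Prod.snd_add] <;> ring
  · rw [if_neg (by omega), if_pos (by omega)]
    show _ = o + rc (r - R, -R - 1)
    unfold rc
    refine Prod.ext ?_ ?_ <;> simp only [Prod.fst_add, Prod.snd_add] <;> ring
  · rw [if_neg (by omega), if_neg (by omega), if_pos (by omega)]
    show _ = o + rc (rc (r - R, -R - 1))
    unfold rc
    refine Prod.ext ?_ ?_ <;> simp only [Prod.fst_add, Prod.snd_add] <;> ring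
  · rw [if_neg (by omega), if_neg (by omega), if_neg (by omega)]
    show _ = o + rc (rc (rc (r - R, -R - 1)))
    unfold rc
    refine Prod.ext ?_ ?_ <;> simp only [Prod.fst_add, Prod.snd_add] <;> ring

lemma rc_next (k : ℤ) (t : ℤ × ℤ) : rc^[((k + 1) % 4).toNat] t = rc^[(k % 4).toNat] (rc t) := by
  have hk0 := Int.emod_nonneg k (show (4 : ℤ) ≠ 0 by norm_num)
  have hk1 := Int.emod_lt_of_pos k (show (0 : ℤ) < 4 by norm_num)
  rcases (show k % 4 = 0 ∨ k % 4 = 1 ∨ k % 4 = 2 ∨ k % 4 = 3 by omega) with h | h | h | h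
  · rw [show (k + 1) % 4 = 1 by omega, h]; rfl
  · rw [show (k + 1) % 4 = 2 by omega, h]; rfl
  · rw [show (k + 1) % 4 = 3 by omega, h]; rfl
  · rw [show (k + 1) % 4 = 0 by omega, h]
    show t = rc^[3] (rc t)
    rw [← Function.iterate_succ_apply]
    exact (rc4 t).symm

/-- outer tiles, also beyond the end of the side -/
lemma tu_Tq {R : ℤ} (hR : 0 < R) (k : ℤ) {r : ℤ} (h0 : 0 ≤ r) (h1 : r < 4 * R) :
    tu o R (2 * R * k + r) = o + rc^[(k % 4).toNat] (Tq R r) := by
  unfold Tq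
  by_cases h : r < 2 * R
  · rw [if_pos h]; exact tu_rc hR k h0 h
  · rw [if_neg h, show 2 * R * k + r = 2 * R * (k + 1) + (r - 2 * R) by ring,
      tu_rc hR (k + 1) (by omega) (by omega), rc_next]
    congr 2
    unfold rc
    refine Prod.ext ?_ ?_ <;> simp only <;> ring

/-- the tile beyond the corner, in the frame of the side -/
lemma tk_rc {R : ℤ} (hR : 0 < R) (k : ℤ) :
    tk o R (2 * R * (k + 1)) = o + rc^[(k % 4).toNat] (R, -R - 1) := by
  have hk0 := Int.emod_nonneg k (show (4 : ℤ) ≠ 0 by norm_num)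
  have hk1 := Int.emod_lt_of_pos k (show (0 : ℤ) < 4 by norm_num)
  have hk2 := Int.mul_ediv_add_emod k 4
  have e1 : 2 * R * (k + 1) = 2 * R * (k % 4 + 1) + 8 * R * (k / 4) := by
    nth_rewrite 1 [← hk2]; ring
  unfold tk
  rw [e1, Int.add_mul_emod_self_left]
  rcases (show k % 4 = 0 ∨ k % 4 = 1 ∨ k % 4 = 2 ∨ k % 4 = 3 by omega) with h | h | h | h <;> rw [h]
  · rw [Int.emod_eq_of_lt (by omega) (by omega), if_neg (by omega), if_pos (by omega)]
    show _ = o + (R, -R - 1)
    refine Prod.ext ?_ ?_ <;> simp only [Prod.fst_add, Prod.snd_add] <;> ring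
  · rw [Int.emod_eq_of_lt (by omega) (by omega), if_neg (by omega), if_neg (by omega),
      if_pos (by omega)]
    show _ = o + rc (R, -R - 1)
    unfold rc
    refine Prod.ext ?_ ?_ <;> simp only [Prod.fst_add, Prod.snd_add] <;> ring
  · rw [Int.emod_eq_of_lt (by omega) (by omega), if_neg (by omega), if_neg (by omega),
      if_neg (by omega)]
    show _ = o + rc (rc (R, -R - 1))
    unfold rc
    refine Prod.ext ?_ ?_ <;> simp only [Prod.fst_add, Prod.snd_add] <;> ring
  · rw [show 2 * R * (3 + 1) = 8 * R by ring, Int.emod_self, if_pos rfl]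
    show _ = o + rc (rc (rc (R, -R - 1)))
    unfold rc
    refine Prod.ext ?_ ?_ <;> simp only [Prod.fst_add, Prod.snd_add] <;> ring

/-! ### Plates of the outer tiles -/

lemma plt_eq {k i : ℤ} (i0 : 0 ≤ i) (i1 : i < 2 * D.n2) :
    D.plt (2 * D.n2 * k + i) = ((k % 4).toNat, i - D.n2) := by
  have hn := D.n2Z
  have hk0 := Int.emod_nonneg k (show (4 : ℤ) ≠ 0 by norm_num)
  have hk1 := Int.emod_lt_of_pos k (show (0 : ℤ) < 4 by norm_num)
  have hk2 := Int.mul_ediv_add_emod k 4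
  unfold RG.plt
  have e1 : (2 * D.n2 * k + i) % (2 * D.n2) = i := by
    rw [add_comm, Int.add_mul_emod_self_left, Int.emod_eq_of_lt i0 i1]
  have e2 : (2 * D.n2 * k + i) % (8 * D.n2) = 2 * D.n2 * (k % 4) + i := by
    have e3 : 2 * D.n2 * k + i = 2 * D.n2 * (k % 4) + i + 8 * D.n2 * (k / 4) := by
      nth_rewrite 1 [← hk2]; ring
    rw [e3, Int.add_mul_emod_self_left]
    rcases (show k % 4 = 0 ∨ k % 4 = 1 ∨ k % 4 = 2 ∨ k % 4 = 3 by omega) with h | h | h | h <;>
      rw [h] <;> exact Int.emod_eq_of_lt (by omega) (by omega)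
  rw [e1, e2]
  congr 2
  rw [add_comm, Int.add_mul_ediv_left _ _ (by omega), Int.ediv_eq_zero_of_lt i0 i1, zero_add]

/-- **The outer tiles of the sides `J p ≤ j < J (p + 1)` belong to the plate `p`.** -/
theorem rg_tu (hn : 8 ≤ n) (h1 : D.J n p ≤ j) (h2 : j < D.J n (p + 1)) :
    D.rg (cl n o (tu o (D.Rr n) j)) = some (D.plt p) := by
  have hn2 := D.n2Z
  have hMZ := D.MZ
  obtain ⟨g1, g2, g3, g4⟩ := nM (D := D) hn
  have hR := Rr_pos (D := D) hn
  obtain ⟨k, i, e, i0, i1, e1, e2⟩ := p_dec (D := D) p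
  -- position on the side
  have hr : D.J n p = 2 * D.Rr n * k + (if i = 0 then n * D.τ - 2 else n * D.M * i - 2) := by
    unfold RG.J; rw [e1, e2]
  have hr' : D.J n (p + 1) = if i + 1 < 2 * D.n2 then 2 * D.Rr n * k + (n * D.M * (i + 1) - 2) else
      2 * D.Rr n * (k + 1) + (n * D.τ - 2) := by
    unfold RG.J
    by_cases hi : i + 1 < 2 * D.n2
    · rw [if_pos hi]
      have e3 : (p + 1) / (2 * D.n2) = k := by
        rw [e, show 2 * (D.n2 : ℤ) * k + i + 1 = i + 1 + k * (2 * D.n2) by ring,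
          Int.add_mul_ediv_right _ _ (by omega), Int.ediv_eq_zero_of_lt (by omega) hi, zero_add]
      have e4 : (p + 1) % (2 * D.n2) = i + 1 := by
        rw [e, show 2 * (D.n2 : ℤ) * k + i + 1 = i + 1 + 2 * D.n2 * k by ring,
          Int.add_mul_emod_self_left, Int.emod_eq_of_lt (by omega) hi]
      rw [e3, e4, if_neg (by omega)]
    · rw [if_neg hi]
      have hi' : i = 2 * D.n2 - 1 := by omega
      have e3 : (p + 1) / (2 * D.n2) = k + 1 := by
        rw [e, hi', show 2 * (D.n2 : ℤ) * k + (2 * D.n2 - 1) + 1 = 0 + (k + 1) * (2 * D.n2) by ring,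
          Int.add_mul_ediv_right _ _ (by omega), Int.zero_ediv, zero_add]
      have e4 : (p + 1) % (2 * D.n2) = 0 := by
        rw [e, hi', show 2 * (D.n2 : ℤ) * k + (2 * D.n2 - 1) + 1 = 2 * D.n2 * (k + 1) by ring,
          Int.mul_emod_right]
      rw [e3, e4, if_pos rfl]
  obtain ⟨r, rfl⟩ : ∃ r, j = 2 * D.Rr n * k + r := ⟨j - 2 * D.Rr n * k, by ring⟩
  -- bounds of `r`
  have r0 : n * D.τ - 2 ≤ r ∧ n * D.M * i - 2 ≤ r := by
    rw [hr] at h1
    by_cases hi : i = 0
    · rw [if_pos hi] at h1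
      rw [hi, mul_zero]
      constructor <;> omega
    · rw [if_neg hi] at h1
      have : n * D.M * 1 ≤ n * D.M * i := mul_le_mul_of_nonneg_left (by omega) (by positivity)
      constructor <;> omega
  have r1 : (r < n * D.M * (i + 1) - 2 ∧ r < 2 * D.Rr n) ∨ (i = 2 * D.n2 - 1 ∧ 2 * D.Rr n ≤ r ∧
      r < 2 * D.Rr n + (n * D.τ - 2)) := by
    rw [hr'] at h2
    by_cases hi : i + 1 < 2 * D.n2
    · rw [if_pos hi] at h2
      left
      have e5 : n * D.M * (2 * D.n2 - 1) = 2 * (n * D.N) - n * D.M := by rw [g3]; ring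
      have e6 : n * D.M * (i + 1) ≤ n * D.M * (2 * D.n2 - 1) :=
        mul_le_mul_of_nonneg_left (by omega) (by positivity)
      rw [e5] at e6
      unfold RG.Rr at h2 ⊢
      omega
    · rw [if_neg hi] at h2
      have hi' : i = 2 * D.n2 - 1 := by omega
      have e5 : n * D.M * (i + 1) = 2 * (n * D.N) := by rw [hi', g3]; ring
      have e6 : 2 * D.Rr n * (k + 1) = 2 * D.Rr n * k + 2 * D.Rr n := by ring
      rw [e6] at h2
      rw [e5]
      by_cases h7 : r < 2 * D.Rr n
      · left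
        unfold RG.Rr at h7 ⊢
        omega
      · right
        refine ⟨hi', by omega, by omega⟩
  rw [e, plt_eq i0 i1]
  have hrlt : r < 4 * D.Rr n := by
    rcases r1 with h | ⟨-, h3, h4⟩
    · omega
    · unfold RG.Rr at *
      omega
  rw [tu_Tq hR k (by omega) hrlt, cl_iter (by omega)]
  have hk0 := Int.emod_nonneg k (show (4 : ℤ) ≠ 0 by norm_num)
  have hk1 := Int.emod_lt_of_pos k (show (0 : ℤ) < 4 by norm_num)
  -- the cell in the frame of the side
  have hcell : D.onA (cl n 0 (Tq (D.Rr n) r)) ∧ D.K (cl n 0 (Tq (D.Rr n) r)).1 = i - D.n2 := by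
    have hdiv : ∀ {a b : ℤ}, n * b ≤ a → a < n * b + n → a / n = b := fun h h' =>
      (dv (by omega)).2 ⟨h, h'⟩
    unfold cl Tq
    by_cases hside : r < 2 * D.Rr n
    · rw [if_pos hside]
      simp only [Prod.fst_zero, Prod.snd_zero, sub_zero]
      set x := (r - D.Rr n) / n with hx
      have hx1 : n * x ≤ r - D.Rr n := Int.mul_ediv_self_le (by omega)
      have hx2 : r - D.Rr n < n * x + n := by
        have := Int.lt_mul_ediv_self_add (x := r - D.Rr n) (k := n) (by omega)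
        exact this
      have hy : (-D.Rr n - 1) / n = -(D.N : ℤ) := by
        refine hdiv ?_ ?_
        · rw [mul_neg]; unfold RG.Rr; omega
        · rw [mul_neg]; unfold RG.Rr; omega
      rw [hy]
      have hlt : r < n * D.M * (i + 1) - 2 := by
        rcases r1 with h | ⟨-, h3, -⟩
        · exact h.1
        · omega
      -- `x + N`
      have hxM : D.M * (i - D.n2) ≤ x ∧ x < D.M * (i - D.n2) + D.M := by
        have k1 : n * (D.M * (i - D.n2)) < n * (x + 1) := by
          have e7 : n * (D.M * (i - D.n2)) = n * D.M * i - n * D.N := by rw [g3]; ring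
          have e8 : n * (x + 1) = n * x + n := by ring
          rw [e7, e8]
          unfold RG.Rr at hx2
          omega
        have k2 : n * x < n * (D.M * (i - D.n2) + D.M) := by
          have e7 : n * (D.M * (i - D.n2) + D.M) = n * D.M * (i + 1) - n * D.N := by rw [g3]; ring
          rw [e7]
          unfold RG.Rr at hx1
          omega
        constructor
        · have := lt_of_mul_lt_mul_left k1 (by omega : (0 : ℤ) ≤ n)
          omega
        · exact lt_of_mul_lt_mul_left k2 (by omega : (0 : ℤ) ≤ n)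
      have hK : D.K x = i - D.n2 := by
        unfold RG.K
        rw [dv hMZ]
        exact hxM
      have hτx : -(D.N : ℤ) + D.τ ≤ x := by
        have k1 : n * (-(D.N : ℤ) + D.τ) < n * (x + 1) := by
          have e7 : n * (-(D.N : ℤ) + D.τ) = n * D.τ - n * D.N := by ring
          have e8 : n * (x + 1) = n * x + n := by ring
          rw [e7, e8]
          unfold RG.Rr at hx2
          omega
        have := lt_of_mul_lt_mul_left k1 (by omega : (0 : ℤ) ≤ n)
        omega
      have hxN : x < D.N := by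
        have : D.M * (i - D.n2) + D.M ≤ D.N := by
          have h5 : D.M * (i - D.n2 + 1) ≤ D.M * D.n2 := mul_le_mul_of_nonneg_left (by omega) hMZ.le
          have h6 := D.NZ
          have e9 : D.M * (i - D.n2 + 1) = D.M * (i - D.n2) + D.M := by ring
          rw [e9] at h5
          rw [h6, mul_comm (D.n2 : ℤ)]
          exact h5
        omega
      have hτ := D.τZ
      have hw := D.hw_bounds (x := x) (by omega) hxN
      refine ⟨⟨⟨by simp only; omega, hxN⟩, ?_, fun h => by simp only at h; omega⟩, hK⟩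
      simp only
      omega
    · rw [if_neg hside]
      obtain ⟨hi', h3, h4⟩ : i = 2 * D.n2 - 1 ∧ 2 * D.Rr n ≤ r ∧ r < 2 * D.Rr n + (n * D.τ - 2) := by
        rcases r1 with h | h
        · exact absurd h.2 hside
        · exact h
      simp only [Prod.fst_zero, Prod.snd_zero, sub_zero]
      have hx : D.Rr n / n = (D.N : ℤ) - 1 := by
        refine hdiv ?_ ?_
        · have : n * ((D.N : ℤ) - 1) = n * D.N - n := by ring
          rw [this]; unfold RG.Rr; omega
        · have : n * ((D.N : ℤ) - 1) = n * D.N - n := by ring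
          rw [this]; unfold RG.Rr; omega
      rw [hx]
      set y := (r - 3 * D.Rr n) / n with hy
      have hy1 : n * y ≤ r - 3 * D.Rr n := Int.mul_ediv_self_le (by omega)
      have hy2 : r - 3 * D.Rr n < n * y + n := by
        have := Int.lt_mul_ediv_self_add (x := r - 3 * D.Rr n) (k := n) (by omega)
        exact this
      have hyN : -(D.N : ℤ) ≤ y := by
        have k1 : n * (-(D.N : ℤ)) < n * (y + 1) := by
          have e8 : n * (y + 1) = n * y + n := by ring
          rw [mul_neg, e8]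
          unfold RG.Rr at hy2 h3
          omega
        have := lt_of_mul_lt_mul_left k1 (by omega : (0 : ℤ) ≤ n)
        omega
      have hyτ : y < -(D.N : ℤ) + D.τ := by
        have k1 : n * y < n * (-(D.N : ℤ) + D.τ) := by
          have e7 : n * (-(D.N : ℤ) + D.τ) = n * D.τ - n * D.N := by ring
          rw [e7]
          unfold RG.Rr at hy1 h4
          omega
        exact lt_of_mul_lt_mul_left k1 (by omega : (0 : ℤ) ≤ n)
      have hτ := D.τZ
      have hNM := D.NM
      have hth := D.thinZ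
      have hK : D.K ((D.N : ℤ) - 1) = i - D.n2 := by
        unfold RG.K
        rw [dv hMZ, hi']
        have h6 := D.NZ
        have e9 : (D.M : ℤ) * (2 * D.n2 - 1 - D.n2) = D.n2 * D.M - D.M := by ring
        rw [e9]
        omega
      have hw : D.hw (D.K ((D.N : ℤ) - 1)) = D.τ := D.hw_tip (by omega) (by omega)
      refine ⟨⟨⟨by simp only; omega, by simp only; omega⟩, ?_, fun h => by simp only at h; omega⟩, hK⟩
      simp only
      rw [hw]
      omega
  have h9 := D.rg_eq (k := (k % 4).toNat) (by omega) hcell.1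
  rw [h9, hcell.2]

/-- **the tile beyond a corner belongs to the tip plate** -/
theorem rg_tk (hn : 8 ≤ n) (k : ℤ) :
    D.rg (cl n o (tk o (D.Rr n) (2 * D.Rr n * (k + 1)))) = some (D.plt (2 * D.n2 * k + (2 * D.n2 - 1))) ∧
      D.J n (2 * D.n2 * k + (2 * D.n2 - 1)) ≤ 2 * D.Rr n * (k + 1) - 1 ∧
      2 * D.Rr n * (k + 1) < D.J n (2 * D.n2 * k + (2 * D.n2 - 1) + 1) := by
  have hn2 := D.n2Z
  have hMZ := D.MZ
  obtain ⟨g1, g2, g3, g4⟩ := nM (D := D) hn
  have hR := Rr_pos (D := D) hn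
  have hτ := D.τZ
  have hNM := D.NM
  have hth := D.thinZ
  have hdiv : ∀ {a b : ℤ}, n * b ≤ a → a < n * b + n → a / n = b := fun h h' =>
    (dv (by omega)).2 ⟨h, h'⟩
  have hk0 := Int.emod_nonneg k (show (4 : ℤ) ≠ 0 by norm_num)
  have hk1 := Int.emod_lt_of_pos k (show (0 : ℤ) < 4 by norm_num)
  refine ⟨?_, ?_, ?_⟩
  · rw [plt_eq (by omega) (by omega), tk_rc hR k, cl_iter (by omega)]
    have hx : D.Rr n / n = (D.N : ℤ) - 1 := by
      refine hdiv ?_ ?_
      · have : n * ((D.N : ℤ) - 1) = n * D.N - n := by ring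
        rw [this]; unfold RG.Rr; omega
      · have : n * ((D.N : ℤ) - 1) = n * D.N - n := by ring
        rw [this]; unfold RG.Rr; omega
    have hy : (-D.Rr n - 1) / n = -(D.N : ℤ) := by
      refine hdiv ?_ ?_
      · rw [mul_neg]; unfold RG.Rr; omega
      · rw [mul_neg]; unfold RG.Rr; omega
    have hc : cl n 0 (D.Rr n, -D.Rr n - 1) = ((D.N : ℤ) - 1, -(D.N : ℤ)) := by
      unfold cl
      simp only [Prod.fst_zero, Prod.snd_zero, sub_zero]
      rw [hx, hy]
    rw [hc]
    have hK : D.K ((D.N : ℤ) - 1) = 2 * D.n2 - 1 - D.n2 := by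
      unfold RG.K
      rw [dv hMZ]
      have h6 := D.NZ
      have e9 : (D.M : ℤ) * (2 * D.n2 - 1 - D.n2) = D.n2 * D.M - D.M := by ring
      rw [e9]
      omega
    have hw : D.hw (D.K ((D.N : ℤ) - 1)) = D.τ := D.hw_tip (by omega) (by omega)
    have hA : D.onA ((D.N : ℤ) - 1, -(D.N : ℤ)) := by
      refine ⟨⟨by simp only; omega, by simp only; omega⟩, ?_, fun h => by simp only at h; omega⟩
      simp only
      rw [hw]
      omega
    have h9 := D.rg_eq (k := (k % 4).toNat) (by omega) hA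
    rw [h9, hK]
  · unfold RG.J
    have e3 : (2 * (D.n2 : ℤ) * k + (2 * D.n2 - 1)) / (2 * D.n2) = k := by
      rw [add_comm, Int.add_mul_ediv_left _ _ (by omega), Int.ediv_eq_zero_of_lt (by omega) (by omega),
        zero_add]
    have e4 : (2 * (D.n2 : ℤ) * k + (2 * D.n2 - 1)) % (2 * D.n2) = 2 * D.n2 - 1 := by
      rw [add_comm, Int.add_mul_emod_self_left, Int.emod_eq_of_lt (by omega) (by omega)]
    rw [e3, e4, if_neg (by omega)]
    have e5 : n * D.M * (2 * D.n2 - 1) = 2 * (n * D.N) - n * D.M := by rw [g3]; ring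
    have e6 : 2 * D.Rr n * (k + 1) = 2 * D.Rr n * k + 2 * D.Rr n := by ring
    rw [e5, e6]
    unfold RG.Rr
    omega
  · unfold RG.J
    have e3 : (2 * (D.n2 : ℤ) * k + (2 * D.n2 - 1) + 1) / (2 * D.n2) = k + 1 := by
      rw [show 2 * (D.n2 : ℤ) * k + (2 * D.n2 - 1) + 1 = 0 + (k + 1) * (2 * D.n2) by ring,
        Int.add_mul_ediv_right _ _ (by omega), Int.zero_ediv, zero_add]
    have e4 : (2 * (D.n2 : ℤ) * k + (2 * D.n2 - 1) + 1) % (2 * D.n2) = 0 := by
      rw [show 2 * (D.n2 : ℤ) * k + (2 * D.n2 - 1) + 1 = 2 * D.n2 * (k + 1) by ring, Int.mul_emod_right]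
    rw [e3, e4, if_pos rfl]
    omega

/-! ### The instance -/

open Classical in
/-- colour of the ring at the side `j` -/
noncomputable def colr (D : RG) (n : ℤ) (s : ℕ × ℤ → Bool) (j : ℤ) : Bool :=
  if h : ∃ p, D.J n p ≤ j ∧ j < D.J n (p + 1) then s (D.plt h.choose) else false

variable {s : ℕ × ℤ → Bool} {w : Finset (ℤ × ℤ)}

lemma J_uniq (hn : 8 ≤ n) {q : ℤ} (h1 : D.J n p ≤ j) (h2 : j < D.J n (p + 1)) (h3 : D.J n q ≤ j)
    (h4 : j < D.J n (q + 1)) : p = q := by
  rcases lt_trichotomy p q with h | h | h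
  · have := J_le (D := D) hn (show p + 1 ≤ q by omega); omega
  · exact h
  · have := J_le (D := D) hn (show q + 1 ≤ p by omega); omega

lemma colr_eq (hn : 8 ≤ n) (h1 : D.J n p ≤ j) (h2 : j < D.J n (p + 1)) :
    colr D n s j = s (D.plt p) := by
  have h : ∃ p, D.J n p ≤ j ∧ j < D.J n (p + 1) := ⟨p, h1, h2⟩
  unfold colr
  rw [dif_pos h, J_uniq hn h.choose_spec.1 h.choose_spec.2 h1 h2]

/-- **The ring of plates is a ring of colours.** -/
theorem ring_of (hn : 8 ≤ n) (hn2 : n % 2 = 0) (ho : (o.1 + o.2) % 2 = 0)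
    (hw : ∀ t q, D.rg (cl n o t) = some q → (lt t ∈ w ↔ s q = true)) :
    Ring o (D.Rr n) w (colr D n s) where
  hR := Rr_pos hn
  ho := ho
  per j := by
    obtain ⟨p, h1, h2⟩ := exists_J (D := D) hn j
    rw [colr_eq hn h1 h2, colr_eq (p := p + 8 * D.n2) hn (by rw [J_add]; omega)
      (by rw [show p + 8 * (D.n2 : ℤ) + 1 = p + 1 + 8 * D.n2 by ring, J_add]; omega), plt_add]
  side j := by
    obtain ⟨p, h1, h2⟩ := exists_J (D := D) hn j
    rw [hw _ _ (rg_tu hn h1 h2), colr_eq hn h1 h2]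
  corner j hj := by
    have hR := Rr_pos (D := D) hn
    obtain ⟨k, rfl⟩ : ∃ k, j = 2 * D.Rr n * (k + 1) := by
      have h1 := Int.mul_ediv_add_emod j (8 * D.Rr n)
      rcases hj with h | h | h | h <;> rw [h] at h1
      · exact ⟨4 * (j / (8 * D.Rr n)) - 1, by nth_rewrite 1 [← h1]; ring⟩
      · exact ⟨4 * (j / (8 * D.Rr n)), by nth_rewrite 1 [← h1]; ring⟩
      · exact ⟨4 * (j / (8 * D.Rr n)) + 1, by nth_rewrite 1 [← h1]; ring⟩
      · exact ⟨4 * (j / (8 * D.Rr n)) + 2, by nth_rewrite 1 [← h1]; ring⟩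
    obtain ⟨h1, h2, h3⟩ := rg_tk (D := D) (n := n) (o := o) hn k
    rw [colr_eq hn h2 (by omega), colr_eq hn (by omega) h3, hw _ _ h1]
    exact ⟨rfl, Iff.rfl⟩
  even j hj := by
    obtain ⟨p, h1, h2⟩ := exists_J (D := D) hn j
    rcases eq_or_lt_of_le h1 with h3 | h3
    · rw [← h3]; exact J_even hn2 p
    · exfalso
      apply hj
      rw [colr_eq hn h1 h2, colr_eq (p := p) hn (by omega) (by omega)]

end plates

/-! ### Marks by plate numbers -/

section marks

variable {D : RG} {n : ℤ} {o : ℤ × ℤ} {p q : ℤ} {s : ℕ × ℤ → Bool} {w : Finset (ℤ × ℤ)}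

/-- colour of the plate number `p` -/
def cp (D : RG) (s : ℕ × ℤ → Bool) (p : ℤ) : Bool := s (D.plt p)

lemma cp_add : cp D s (p + 8 * D.n2) = cp D s p := by unfold cp; rw [plt_add]

lemma cp_add' (k : ℤ) : cp D s (p + 8 * D.n2 * k) = cp D s p := by
  have key : ∀ (m : ℕ) p, cp D s (p + 8 * D.n2 * m) = cp D s p := by
    intro m
    induction m with
    | zero => intro p; simp
    | succ m ih =>
      intro p
      rw [show p + 8 * (D.n2 : ℤ) * ((m + 1 : ℕ) : ℤ) = p + 8 * D.n2 * m + 8 * D.n2 by push_cast; ring,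
        cp_add, ih]
  rcases le_total 0 k with h | h
  · have := key k.toNat p
    rwa [Int.toNat_of_nonneg h] at this
  · have := key (-k).toNat (p + 8 * D.n2 * k)
    rw [Int.toNat_of_nonneg (by omega)] at this
    rw [← this]
    congr 1; ring

lemma J_add' (k : ℤ) : D.J n (p + 8 * D.n2 * k) = D.J n p + 8 * D.Rr n * k := by
  have key : ∀ (m : ℕ) p, D.J n (p + 8 * D.n2 * m) = D.J n p + 8 * D.Rr n * m := by
    intro m
    induction m with
    | zero => intro p; simp
    | succ m ih =>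
      intro p
      rw [show p + 8 * (D.n2 : ℤ) * ((m + 1 : ℕ) : ℤ) = p + 8 * D.n2 * m + 8 * D.n2 by push_cast; ring,
        J_add, ih]
      push_cast; ring
  rcases le_total 0 k with h | h
  · have := key k.toNat p
    rwa [Int.toNat_of_nonneg h] at this
  · have := key (-k).toNat (p + 8 * D.n2 * k)
    rw [Int.toNat_of_nonneg (by omega)] at this
    rw [show p + 8 * (D.n2 : ℤ) * k + 8 * D.n2 * -k = p by ring] at this
    rw [this]; ring

lemma sd_add' {R : ℤ} {j : ℤ} (k : ℤ) : sd o R (j + 8 * R * k) = sd o R j := by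
  unfold sd; rw [Int.add_mul_emod_self_left]

lemma pt_add' {R : ℤ} {j : ℤ} (k : ℤ) : pt o R (j + 8 * R * k) = pt o R j := by
  unfold pt; rw [Int.add_mul_emod_self_left]

/-- the exit at the START `p` -/
noncomputable def xs (D : RG) (n : ℤ) (o : ℤ × ℤ) (p : ℤ) : ℤ × ℤ := sd o (D.Rr n) (D.J n p - 1)

/-- the entrance at the END `q` -/
noncomputable def ye (D : RG) (n : ℤ) (o : ℤ × ℤ) (q : ℤ) : ℤ × ℤ := sd o (D.Rr n) (D.J n (q + 1))

lemma xs_add (k : ℤ) : xs D n o (p + 8 * D.n2 * k) = xs D n o p := by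
  unfold xs
  rw [J_add', show D.J n p + 8 * D.Rr n * k - 1 = D.J n p - 1 + 8 * D.Rr n * k by ring, sd_add']

lemma ye_add (k : ℤ) : ye D n o (q + 8 * D.n2 * k) = ye D n o q := by
  unfold ye
  rw [show q + 8 * (D.n2 : ℤ) * k + 1 = q + 1 + 8 * D.n2 * k by ring, J_add', sd_add']

/-- START: closed before, open after -/
def St (D : RG) (s : ℕ × ℤ → Bool) (p : ℤ) : Prop := cp D s (p - 1) = false ∧ cp D s p = true

/-- END: open before, closed after -/
def En (D : RG) (s : ℕ × ℤ → Bool) (q : ℤ) : Prop := cp D s q = true ∧ cp D s (q + 1) = false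

lemma St.add (h : St D s p) (k : ℤ) : St D s (p + 8 * D.n2 * k) := by
  unfold St at *
  rw [show p + 8 * (D.n2 : ℤ) * k - 1 = p - 1 + 8 * D.n2 * k by ring, cp_add', cp_add']
  exact h

lemma En.add (h : En D s q) (k : ℤ) : En D s (q + 8 * D.n2 * k) := by
  unfold En at *
  rw [show q + 8 * (D.n2 : ℤ) * k + 1 = q + 1 + 8 * D.n2 * k by ring, cp_add', cp_add']
  exact h

/-- representative in a period -/
lemma exists_lift (a x : ℤ) : ∃ k : ℤ, a ≤ x + 8 * D.n2 * k ∧ x + 8 * D.n2 * k < a + 8 * D.n2 := by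
  have hn := D.n2Z
  refine ⟨-((x - a) / (8 * D.n2)), ?_⟩
  have h1 := Int.mul_ediv_add_emod (x - a) (8 * D.n2)
  have h2 := Int.emod_nonneg (x - a) (show (8 : ℤ) * D.n2 ≠ 0 by omega)
  have h3 := Int.emod_lt_of_pos (x - a) (show (0 : ℤ) < 8 * D.n2 by omega)
  have e : x + 8 * D.n2 * -((x - a) / (8 * D.n2)) = x - 8 * D.n2 * ((x - a) / (8 * D.n2)) := by ring
  rw [e]
  constructor <;> omega

variable (hn : 8 ≤ n) (hn2 : n % 2 = 0) (ho : (o.1 + o.2) % 2 = 0)
  (hw : ∀ t q, D.rg (cl n o t) = some q → (lt t ∈ w ↔ s q = true))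

include hn hn2 ho hw

/-- **START leads to END**, plate numbers -/
theorem st_end (h : St D s p) : ∃ q, (p ≤ q ∧ q < p + 8 * D.n2) ∧ En D s q ∧
    Ret (Ou o (D.Rr n)) w (xs D n o p) (ye D n o q) := by
  have hr := ring_of hn hn2 ho hw
  have h1 : colr D n s (D.J n p - 1) = false := by
    rw [colr_eq (p := p - 1) hn (by have := J_lt (D := D) hn (p - 1); rw [sub_add_cancel] at this; omega)
      (by rw [sub_add_cancel]; omega)]
    exact h.1
  have h2 : colr D n s (D.J n p) = true := by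
    rw [colr_eq (p := p) hn le_rfl (J_lt hn p)]
    exact h.2
  obtain ⟨l, hl, h3, h4⟩ := hr.ret_start h1 h2
  obtain ⟨q, h5, h6⟩ := exists_J (D := D) hn (l - 1)
  have h7 : l = D.J n (q + 1) := by
    by_contra hc
    rw [colr_eq hn h5 h6] at h3
    rw [colr_eq (p := q) hn (by omega) (by omega), h3] at h4
    exact absurd h4 (by simp)
  have hq : En D s q := by
    constructor
    · rw [colr_eq hn h5 h6] at h3; exact h3
    · rw [h7, colr_eq (p := q + 1) hn le_rfl (J_lt hn _)] at h4; exact h4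
  obtain ⟨k, hk⟩ := exists_lift (D := D) p q
  refine ⟨q + 8 * D.n2 * k, hk, hq.add k, ?_⟩
  rw [ye_add]
  unfold xs ye
  rw [← h7]
  exact hl

/-- **every END is reached**, plate numbers -/
theorem end_st (h : En D s q) : ∃ p, (p ≤ q ∧ q < p + 8 * D.n2) ∧ St D s p ∧
    Ret (Ou o (D.Rr n)) w (xs D n o p) (ye D n o q) := by
  have hr := ring_of hn hn2 ho hw
  have h1 : colr D n s (D.J n (q + 1) - 1) = true := by
    rw [colr_eq (p := q) hn (by have := J_lt (D := D) hn q; omega) (by omega)]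
    exact h.1
  have h2 : colr D n s (D.J n (q + 1)) = false := by
    rw [colr_eq (p := q + 1) hn le_rfl (J_lt hn _)]
    exact h.2
  obtain ⟨j, hj, h3, h4⟩ := hr.ret_end h1 h2
  obtain ⟨p, h5, h6⟩ := exists_J (D := D) hn j
  have h7 : j = D.J n p := by
    by_contra hc
    rw [colr_eq hn h5 h6] at h4
    rw [colr_eq (p := p) hn (by omega) (by omega), h4] at h3
    exact absurd h3 (by simp)
  have hp : St D s p := by
    constructor
    · rw [h7, colr_eq (p := p - 1) hn
        (by have := J_lt (D := D) hn (p - 1); rw [sub_add_cancel] at this; omega)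
        (by rw [sub_add_cancel]; omega)] at h3
      exact h3
    · rw [colr_eq hn h5 h6] at h4; exact h4
  obtain ⟨k, hk1, hk2⟩ := exists_lift (D := D) (q - 8 * D.n2 + 1) p
  refine ⟨p + 8 * D.n2 * k, ⟨by omega, by omega⟩, hp.add k, ?_⟩
  rw [xs_add]
  unfold xs ye
  rw [← h7]
  exact hj

/-- **two returns do not cross**, plate numbers -/
theorem nc_plates {p1 p2 q1 q2 : ℤ} (h1 : St D s p1) (h2 : St D s p2) (h3 : En D s q1)
    (h4 : En D s q2) (r1 : Ret (Ou o (D.Rr n)) w (xs D n o p1) (ye D n o q1))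
    (r2 : Ret (Ou o (D.Rr n)) w (xs D n o p2) (ye D n o q2)) (a1 : p1 < p2) (a2 : p2 ≤ q1)
    (a3 : q1 < q2) (a4 : q2 < p1 + 8 * D.n2) : False := by
  have hr := ring_of hn hn2 ho hw
  have b4 : q2 + 1 ≠ p1 + 8 * D.n2 := by
    intro h
    have e1 := h4.2
    rw [h, cp_add, h1.2] at e1
    exact absurd e1 (by simp)
  have c1 := J_mono (D := D) hn a1
  have c2 := J_mono (D := D) hn (show p2 < q1 + 1 by omega)
  have c3 := J_mono (D := D) hn (show q1 + 1 < q2 + 1 by omega)
  have c4 := J_mono (D := D) hn (show q2 + 1 < p1 + 8 * D.n2 by omega)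
  rw [J_add] at c4
  have e1 := J_even (D := D) hn2 (q2 + 1)
  have e2 := J_even (D := D) hn2 p1
  refine hr.nc (j1 := D.J n p1 - 1) (j2 := D.J n p2 - 1) (j3 := D.J n (q1 + 1))
    (j4 := D.J n (q2 + 1)) (by omega) (by omega) (by omega) (by omega) (Or.inl r1) (Or.inl r2)

omit hw
omit hn2 in
/-- vertex of an exit -/
lemma vx_xs (hn2 : n % 2 = 0) : vx (xs D n o p) = V (pt o (D.Rr n) (D.J n p)) ∧
    fi (xs D n o p) = Fc (pt o (D.Rr n) (D.J n p - 1)) := by
  have h := jn_sd (o := o) (Rr_pos (D := D) hn) (D.J n p - 1)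
  rw [sub_add_cancel] at h
  have h2 := par_pt (o := o) (Rr_pos (D := D) hn) ho (D.J n p)
  rw [J_even hn2] at h2
  exact Jn.vx_fi h.symm h2

omit hn2 in
/-- vertex of an entrance -/
lemma vx_ye (hn2 : n % 2 = 0) : vx (ye D n o q) = V (pt o (D.Rr n) (D.J n (q + 1))) ∧
    fi (ye D n o q) = Fc (pt o (D.Rr n) (D.J n (q + 1) + 1)) := by
  have h := jn_sd (o := o) (Rr_pos (D := D) hn) (D.J n (q + 1))
  have h2 := par_pt (o := o) (Rr_pos (D := D) hn) ho (D.J n (q + 1))
  rw [J_even hn2] at h2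
  exact Jn.vx_fi h h2

end marks

end Pool.Agent.H68.G
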