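import Mathlib
import Pool.Agent.H65.G.PlTile
import Pool.Agent.H65.G.RoomN
import Pool.Agent.H68.G.RingP

set_option autoImplicit false
open Finset

/-!
# Plates without their notch tiles (Route W, W-G, R3b)

Window frame: `D.ow n = (0, n (N - τ))`, `E = EN ((D.cw s).win n h2 he) false` (random tiles: cells of the
room and notch tiles). A notch tile is the corner tile of a plate, near it the plate is a quadrant
(`notch_quad`), so the plate without its notch tiles is still connected.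
`plate_coN`, `plate_dcoN` : corners of the tiles of a plate which are not in `E` are joined.
`e_sq` : `E` is inside the square of half side `n N - 2`. `ring_ofE` : instance of `Ring`.
-/

namespace Pool.Agent.H68.G

open Pool.Agent.H75.Perc hiding WL CT hh PB
open Pool.Agent.H75.TwoArm
open Pool.Agent.Q1.M4 (Cell)
open Pool.Agent.H33.Q1 hiding rc
open Pool.Agent.Q1 (DCo)
open Pool.Agent.H5.FM
open Pool.Agent.H46.Sp (Win)
open Pool.Agent.H74.Win (InP EN mem_EN)
open Pool.Agent.H65.G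

/-! ### Chains which avoid isolated points -/

/-- **detours** : if the neighbours (in `S`) of every point of `N` are outside of `N` and joined outside
of `N`, then chains can avoid `N` -/
lemma Ch.detour {S N : ℤ × ℤ → Prop}
    (hloc : ∀ z, S z → N z → ∀ a b, IsUnit4 (z - a) → IsUnit4 (z - b) → S a → S b →
      ¬ N a ∧ Ch (fun c => S c ∧ ¬ N c) a b) {t t' : ℤ × ℤ} (h : Ch S t t') (ht : ¬ N t) :
    (¬ N t' → Ch (fun c => S c ∧ ¬ N c) t t') ∧
      (N t' → ∀ a, IsUnit4 (t' - a) → S a → Ch (fun c => S c ∧ ¬ N c) t a) := by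
  unfold Ch at h
  induction h with
  | refl => exact ⟨fun _ => Ch.refl _ _, fun h => absurd h ht⟩
  | @tail u v _ huv ih =>
    obtain ⟨h1, h2, h3⟩ := huv
    have h1' : IsUnit4 (u - v) := by
      have := isUnit4_neg h1
      rwa [neg_sub] at this
    constructor
    · intro hv
      by_cases hu : N u
      · exact ih.2 hu v h1' h3
      · exact (ih.1 hu).tail ⟨h1, ⟨h2, hu⟩, h3, hv⟩
    · intro hv a ha hSa
      by_cases hu : N u
      · exact absurd hv (hloc u h2 hu v v h1' h1' h3 h3).1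
      · exact (ih.1 hu).trans (hloc v h3 hv u a h1 ha h2 hSa).2

/-! ### Notches -/

/-- notch tiles -/
def NT (D : RG) (s : ℕ × ℤ → Bool) (n : ℤ) (t : ℤ × ℤ) : Prop :=
  (0 ≤ t.2 ∧ t.2 < n * D.HR) ∧ (D.NL s n t.1 t.2 ∨ D.NR s n t.1 t.2)

section

variable {D : RG} {s : ℕ × ℤ → Bool} {n : ℤ}

lemma ow_even (he : n % 2 = 0) : ((D.ow n).1 + (D.ow n).2) % 2 = 0 := by
  obtain ⟨m, rfl⟩ := Int.dvd_of_emod_eq_zero he
  unfold RG.ow
  simp only
  rw [zero_add, mul_assoc, Int.mul_emod_right]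

/-- **Near a notch the plate is a quadrant.** -/
theorem notch_quad (h2 : 2 ≤ n) {t : ℤ × ℤ} (h : NT D s n t) : ∃ (q : ℕ × ℤ) (σ κ : ℤ),
    (σ = 1 ∨ σ = -1) ∧ (κ = 1 ∨ κ = -1) ∧ ∀ x' y' : ℤ, |x' - t.1| < n → |y' - t.2| < n →
      ((0 ≤ σ * (x' - t.1) ∧ 0 ≤ κ * (y' - t.2) → D.rg (x' / n, y' / n - D.N + D.τ) = some q) ∧
        (¬ (0 ≤ σ * (x' - t.1) ∧ 0 ≤ κ * (y' - t.2)) → D.rg (x' / n, y' / n - D.N + D.τ) = none)) := by
  obtain ⟨x, y⟩ := t
  obtain ⟨⟨h0, h1⟩, h⟩ := h
  simp only at h0 h1 h ⊢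
  have hn : (0 : ℤ) < n := by omega
  have row : 0 ≤ y / n ∧ y / n < D.HR :=
    ⟨Int.ediv_nonneg h0 hn.le, by rw [Int.ediv_lt_iff_lt_mul hn, mul_comm]; exact h1⟩
  obtain ⟨q, r, hyq, q0, q1⟩ := Pool.Agent.H5.FM.exists_qr hn y
  have hyd : y / n = q := by rw [hyq]; exact Pool.Agent.H5.FM.qr_div q0 q1
  have hym : y % n = r := by rw [hyq]; exact Pool.Agent.H5.FM.qr_mod q0 q1
  rw [hyd] at row
  have hab := (D.cw s).ab q row.1 row.2
  have hA : (D.cw s).A = D.AL := rfl
  have hB : (D.cw s).B = D.AR := rfl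
  have hHC : (D.cw s).H = D.HR := rfl
  rw [hA, hB] at hab
  have two : ∀ {z z' X : ℤ}, z = n * X - 1 → |z' - z| < n →
      (z' ≤ z ∧ z' / n = X - 1) ∨ (z < z' ∧ z' / n = X) := by
    intro z z' X h3 h4
    rw [abs_lt] at h4
    rcases lt_or_ge z' (n * X) with h5 | h5
    · left
      exact ⟨by omega, RG.div_eq' hn (by rw [mul_sub, mul_one]; omega) (by rw [mul_sub, mul_one]; omega)⟩
    · right
      exact ⟨by omega, RG.div_eq' hn h5 (by omega)⟩
  have two' : ∀ {z z' X : ℤ}, z = n * X → |z' - z| < n →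
      (z' < z ∧ z' / n = X - 1) ∨ (z ≤ z' ∧ z' / n = X) := by
    intro z z' X h3 h4
    rw [abs_lt] at h4
    rcases lt_or_ge z' (n * X) with h5 | h5
    · left
      exact ⟨by omega, RG.div_eq' hn (by rw [mul_sub, mul_one]; omega) (by rw [mul_sub, mul_one]; omega)⟩
    · right
      exact ⟨by omega, RG.div_eq' hn h5 (by omega)⟩
  rcases h with ⟨g1, g2⟩ | ⟨g1, g2⟩
  · rw [hyd] at g1 g2
    rw [hym] at g1
    have hpl := D.rg_L row.1 row.2 (X := D.AL q - 1) (by omega) (Or.inl rfl)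
    rcases CW.dA_one (C := D.cw s) (N := n) g1 with ⟨k1, k2, k3, -⟩ | ⟨k1, k2, k3, -⟩
    · -- lower notch
      rw [hA] at k3
      have hq1 : q + 1 < D.HR := by
        have := (D.cw s).P1
        rw [hHC] at this
        omega
      have hov := (D.cw s).ov1 q row.1 hq1
      have hab1 := (D.cw s).ab (q + 1) (by omega) hq1
      rw [hA, hB] at hov hab1
      refine ⟨D.PL q, -1, -1, Or.inr rfl, Or.inr rfl, fun x' y' hx' hy' => ?_⟩
      have tx := two g2 hx'
      have ty := two (z := y) (z' := y') (X := q + 1) (by rw [hyq, k2]; ring) hy'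
      rw [add_sub_cancel_right] at ty
      rcases tx with ⟨lx, tx⟩ | ⟨lx, tx⟩ <;> rcases ty with ⟨ly, ty⟩ | ⟨ly, ty⟩ <;> rw [tx, ty]
      · exact ⟨fun _ => hpl, fun hc => absurd ⟨by omega, by omega⟩ hc⟩
      · exact ⟨fun hc => by omega, fun _ => D.room_cell (by omega) hq1 (by omega) (by omega)⟩
      · exact ⟨fun hc => by omega, fun _ => D.room_cell row.1 row.2 le_rfl hab⟩
      · exact ⟨fun hc => by omega, fun _ => D.room_cell (by omega) hq1 (by omega) hov⟩
    · -- upper notch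
      rw [hA] at k3
      have hP0 := (D.cw s).P0
      have hov := (D.cw s).ov2 (q - 1) (by omega) (by rw [hHC]; omega)
      have hab1 := (D.cw s).ab (q - 1) (by omega) (by rw [hHC]; omega)
      rw [hA, hB, sub_add_cancel] at hov
      rw [hA, hB] at hab1
      refine ⟨D.PL q, -1, 1, Or.inr rfl, Or.inl rfl, fun x' y' hx' hy' => ?_⟩
      have tx := two g2 hx'
      have ty := two' (z := y) (z' := y') (X := q) (by rw [hyq, k2]; ring) hy'
      rcases tx with ⟨lx, tx⟩ | ⟨lx, tx⟩ <;> rcases ty with ⟨ly, ty⟩ | ⟨ly, ty⟩ <;> rw [tx, ty]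
      · exact ⟨fun hc => by omega, fun _ => D.room_cell (by omega) (by omega) (by omega) (by omega)⟩
      · exact ⟨fun _ => hpl, fun hc => absurd ⟨by omega, by omega⟩ hc⟩
      · exact ⟨fun hc => by omega, fun _ => D.room_cell (by omega) (by omega) (by omega) hov⟩
      · exact ⟨fun hc => by omega, fun _ => D.room_cell row.1 row.2 le_rfl hab⟩
  · rw [hyd] at g1 g2
    rw [hym] at g1
    have hpl := D.rg_R row.1 row.2 (X := D.AR q) le_rfl (Or.inl rfl)
    rcases CW.dB_one (C := D.cw s) (N := n) g1 with ⟨k1, k2, k3, -⟩ | ⟨k1, k2, k3, -⟩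
    · -- lower notch
      rw [hB] at k3
      have hq1 : q + 1 < D.HR := by
        have := (D.cw s).Q1
        rw [hHC] at this
        omega
      have hov := (D.cw s).ov2 q row.1 hq1
      have hab1 := (D.cw s).ab (q + 1) (by omega) hq1
      rw [hA, hB] at hov hab1
      refine ⟨D.PR q, 1, -1, Or.inl rfl, Or.inr rfl, fun x' y' hx' hy' => ?_⟩
      have tx := two' g2 hx'
      have ty := two (z := y) (z' := y') (X := q + 1) (by rw [hyq, k2]; ring) hy'
      rw [add_sub_cancel_right] at ty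
      rcases tx with ⟨lx, tx⟩ | ⟨lx, tx⟩ <;> rcases ty with ⟨ly, ty⟩ | ⟨ly, ty⟩ <;> rw [tx, ty]
      · exact ⟨fun hc => by omega, fun _ => D.room_cell row.1 row.2 (by omega) (by omega)⟩
      · exact ⟨fun hc => by omega, fun _ => D.room_cell (by omega) hq1 (by omega) (by omega)⟩
      · exact ⟨fun _ => hpl, fun hc => absurd ⟨by omega, by omega⟩ hc⟩
      · exact ⟨fun hc => by omega, fun _ => D.room_cell (by omega) hq1 (by omega) (by omega)⟩
    · -- upper notch
      rw [hB] at k3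
      have hQ0 := (D.cw s).Q0
      have hov := (D.cw s).ov1 (q - 1) (by omega) (by rw [hHC]; omega)
      have hab1 := (D.cw s).ab (q - 1) (by omega) (by rw [hHC]; omega)
      rw [hA, hB, sub_add_cancel] at hov
      rw [hA, hB] at hab1
      refine ⟨D.PR q, 1, 1, Or.inl rfl, Or.inl rfl, fun x' y' hx' hy' => ?_⟩
      have tx := two' g2 hx'
      have ty := two' (z := y) (z' := y') (X := q) (by rw [hyq, k2]; ring) hy'
      rcases tx with ⟨lx, tx⟩ | ⟨lx, tx⟩ <;> rcases ty with ⟨ly, ty⟩ | ⟨ly, ty⟩ <;> rw [tx, ty]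
      · exact ⟨fun hc => by omega, fun _ => D.room_cell (by omega) (by omega) (by omega) (by omega)⟩
      · exact ⟨fun hc => by omega, fun _ => D.room_cell row.1 row.2 (by omega) (by omega)⟩
      · exact ⟨fun hc => by omega, fun _ => D.room_cell (by omega) (by omega) (by omega) (by omega)⟩
      · exact ⟨fun _ => hpl, fun hc => absurd ⟨by omega, by omega⟩ hc⟩

/-- **the neighbours of a notch in its plate** -/
theorem notch_loc (h2 : 8 ≤ n) {q : ℕ × ℤ} {z : ℤ × ℤ} (hz : D.tp n (D.ow n) z = some q)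
    (hN : NT D s n z) {a b : ℤ × ℤ} (ha : IsUnit4 (z - a)) (hb : IsUnit4 (z - b))
    (Sa : D.tp n (D.ow n) a = some q) (Sb : D.tp n (D.ow n) b = some q) :
    ¬ NT D s n a ∧ Ch (fun c => D.tp n (D.ow n) c = some q ∧ ¬ NT D s n c) a b := by
  have hn : (0 : ℤ) < n := by omega
  obtain ⟨q', σ, κ, hσ, hκ, H⟩ := notch_quad (by omega) hN
  have tp' : ∀ t : ℤ × ℤ, D.tp n (D.ow n) t = D.rg (t.1 / n, t.2 / n - D.N + D.τ) := fun t =>
    D.tp_ow hn t.1 t.2
  have qq : q' = q := by
    have h1 := (H z.1 z.2 (by rw [sub_self, abs_zero]; exact hn) (by rw [sub_self, abs_zero]; exact hn)).1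
      (by rw [sub_self, sub_self, mul_zero, mul_zero]; exact ⟨le_rfl, le_rfl⟩)
    rw [tp', h1] at hz
    exact Option.some_injective _ hz
  subst qq
  -- tiles of the quadrant
  have inq : ∀ t : ℤ × ℤ, |t.1 - z.1| < n → |t.2 - z.2| < n → 0 ≤ σ * (t.1 - z.1) →
      0 ≤ κ * (t.2 - z.2) → D.tp n (D.ow n) t = some q' := fun t h1 h2 h3 h4 => by
    rw [tp']; exact (H t.1 t.2 h1 h2).1 ⟨h3, h4⟩
  have outq : ∀ t : ℤ × ℤ, |t.1 - z.1| < n → |t.2 - z.2| < n → D.tp n (D.ow n) t = some q' →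
      0 ≤ σ * (t.1 - z.1) ∧ 0 ≤ κ * (t.2 - z.2) := fun t h1 h2 h3 => by
    by_contra hc
    rw [tp', (H t.1 t.2 h1 h2).2 hc] at h3
    cases h3
  -- another notch in the quadrant is impossible
  have nn : ∀ t : ℤ × ℤ, |t.1 - z.1| ≤ 1 → |t.2 - z.2| ≤ 1 → t ≠ z →
      0 ≤ σ * (t.1 - z.1) → 0 ≤ κ * (t.2 - z.2) → ¬ NT D s n t := by
    intro t h1 h2' hne h3 h4 hNt
    obtain ⟨q'', σ', κ', hσ', hκ', H'⟩ := notch_quad (by omega) hNt
    rw [abs_le] at h1 h2'
    have hne' : t.1 ≠ z.1 ∨ t.2 ≠ z.2 := by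
      by_contra hc
      rw [not_or, not_not, not_not] at hc
      exact hne (Prod.ext hc.1 hc.2)
    rcases hne' with hx | hy
    · -- horizontal neighbours of `t`
      have k1 := inq (t.1 - σ', t.2) (by rw [abs_lt]; rcases hσ' with rfl | rfl <;> constructor <;>
          simp only <;> omega) (by rw [abs_lt]; simp only; omega)
        (by simp only; rcases hσ with rfl | rfl <;> rcases hσ' with rfl | rfl <;> omega) h4
      have k2 := (H' (t.1 - σ') t.2 (by rw [abs_lt]; rcases hσ' with rfl | rfl <;> constructor <;> omega)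
        (by rw [sub_self, abs_zero]; exact hn)).2 (by
          rintro ⟨c1, -⟩; rcases hσ' with rfl | rfl <;> omega)
      rw [tp'] at k1
      simp only at k1
      rw [k2] at k1
      cases k1
    · have k1 := inq (t.1, t.2 - κ') (by rw [abs_lt]; simp only; omega)
        (by rw [abs_lt]; rcases hκ' with rfl | rfl <;> constructor <;> simp only <;> omega)
        h3 (by simp only; rcases hκ with rfl | rfl <;> rcases hκ' with rfl | rfl <;> omega)
      have k2 := (H' t.1 (t.2 - κ') (by rw [sub_self, abs_zero]; exact hn)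
        (by rw [abs_lt]; rcases hκ' with rfl | rfl <;> constructor <;> omega)).2 (by
          rintro ⟨-, c1⟩; rcases hκ' with rfl | rfl <;> omega)
      rw [tp'] at k1
      simp only at k1
      rw [k2] at k1
      cases k1
  -- the two neighbours
  have nb : ∀ a : ℤ × ℤ, IsUnit4 (z - a) → D.tp n (D.ow n) a = some q' →
      a = (z.1 + σ, z.2) ∨ a = (z.1, z.2 + κ) := by
    intro a ha Sa
    have h1 := unit_cases ha
    have h3 := outq a (by rw [abs_lt]; omega) (by rw [abs_lt]; omega) Sa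
    obtain ⟨ax, ay⟩ := a
    simp only [Prod.mk.injEq]
    simp only at h1 h3
    rcases hσ with rfl | rfl <;> rcases hκ with rfl | rfl <;> omega
  have hs1 : |σ| ≤ 1 := by rcases hσ with rfl | rfl <;> simp
  have hk1 : |κ| ≤ 1 := by rcases hκ with rfl | rfl <;> simp
  have hσσ : 0 ≤ σ * σ := mul_self_nonneg _
  have hκκ : 0 ≤ κ * κ := mul_self_nonneg _
  have hσ0 : σ ≠ 0 := by rcases hσ with rfl | rfl <;> norm_num
  have hκ0 : κ ≠ 0 := by rcases hκ with rfl | rfl <;> norm_num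
  have N1 : ¬ NT D s n (z.1 + σ, z.2) := nn _ (by simpa using hs1) (by simp)
    (fun h => hσ0 (by have := congrArg Prod.fst h; simp only at this; omega))
    (by simpa using hσσ) (by simp)
  have N2 : ¬ NT D s n (z.1, z.2 + κ) := nn _ (by simp) (by simpa using hk1)
    (fun h => hκ0 (by have := congrArg Prod.snd h; simp only at this; omega))
    (by simp) (by simpa using hκκ)
  have N3 : ¬ NT D s n (z.1 + σ, z.2 + κ) := nn _ (by simpa using hs1) (by simpa using hk1)
    (fun h => hσ0 (by have := congrArg Prod.fst h; simp only at this; omega))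
    (by simpa using hσσ) (by simpa using hκκ)
  have S1 : D.tp n (D.ow n) (z.1 + σ, z.2) = some q' := inq _ (by simpa using lt_of_le_of_lt hs1 (by omega))
    (by simpa using hn) (by simpa using hσσ) (by simp)
  have S2 : D.tp n (D.ow n) (z.1, z.2 + κ) = some q' := inq _ (by simpa using hn)
    (by simpa using lt_of_le_of_lt hk1 (by omega)) (by simp) (by simpa using hκκ)
  have S3 : D.tp n (D.ow n) (z.1 + σ, z.2 + κ) = some q' := inq _
    (by simpa using lt_of_le_of_lt hs1 (by omega)) (by simpa using lt_of_le_of_lt hk1 (by omega))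
    (by simpa using hσσ) (by simpa using hκκ)
  -- the detour
  have e1 : Ch (fun c => D.tp n (D.ow n) c = some q' ∧ ¬ NT D s n c) (z.1 + σ, z.2)
      (z.1 + σ, z.2 + κ) := by
    refine Relation.ReflTransGen.single ⟨?_, ⟨S1, N1⟩, S3, N3⟩
    unfold IsUnit4
    simp only [Prod.mk_sub_mk, Prod.mk.injEq]
    rcases hκ with rfl | rfl <;> omega
  have e2 : Ch (fun c => D.tp n (D.ow n) c = some q' ∧ ¬ NT D s n c) (z.1, z.2 + κ)
      (z.1 + σ, z.2 + κ) := by
    refine Relation.ReflTransGen.single ⟨?_, ⟨S2, N2⟩, S3, N3⟩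
    unfold IsUnit4
    simp only [Prod.mk_sub_mk, Prod.mk.injEq]
    rcases hσ with rfl | rfl <;> omega
  rcases nb a ha Sa with rfl | rfl <;> rcases nb b hb Sb with rfl | rfl
  · exact ⟨N1, Ch.refl _ _⟩
  · exact ⟨N1, e1.trans e2.symm⟩
  · exact ⟨N2, e2.trans e1.symm⟩
  · exact ⟨N2, Ch.refl _ _⟩

/-- **plates without notch tiles are connected** -/
theorem tp_chN (h2 : 8 ≤ n) {q : ℕ × ℤ} {t t' : ℤ × ℤ} (h : D.tp n (D.ow n) t = some q)
    (h' : D.tp n (D.ow n) t' = some q) (ht : ¬ NT D s n t) (ht' : ¬ NT D s n t') :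
    Ch (fun c => D.tp n (D.ow n) c = some q ∧ ¬ NT D s n c) t t' :=
  (Ch.detour (fun _ hz hN _ _ ha hb Sa Sb => notch_loc h2 hz hN ha hb Sa Sb)
    (D.tp_ch (by omega) h h') ht).1 ht'

variable (h2 : 2 ≤ n) (he : n % 2 = 0)

/-- in a plate the random tiles are the notch tiles -/
theorem mem_E_plate {q : ℕ × ℤ} {t : ℤ × ℤ} (h : D.tp n (D.ow n) t = some q) :
    lt t ∈ EN ((D.cw s).win n h2 he) false ↔ NT D s n t := by
  have hn : (0 : ℤ) < n := by omega
  obtain ⟨x, y⟩ := t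
  rw [mem_EN, D.zone_iff s h2 he]
  unfold NT
  simp only
  constructor
  · rintro ⟨h3, h4 | h4⟩
    · exfalso
      rw [D.tp_ow hn] at h
      obtain ⟨r0, r1⟩ := D.row_bd h2 h3.1 h3.2
      rw [D.room_cell r0 r1 h4.1 h4.2] at h
      cases h
    · exact ⟨h3, h4⟩
  · rintro ⟨h3, h4⟩
    exact ⟨h3, Or.inr h4⟩

/-- **`E` is inside the square** -/
theorem e_sq (h8 : 8 ≤ n) {t : ℤ × ℤ} (h : lt t ∈ EN ((D.cw s).win n h2 he) false) :
    Sq (D.ow n) (D.Rr n) t := by
  have hn : (0 : ℤ) < n := by omega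
  obtain ⟨x, y⟩ := t
  rw [mem_EN, D.zone_iff s h2 he] at h
  obtain ⟨h3, h4⟩ := h
  obtain ⟨r0, r1⟩ := D.row_bd h2 h3.1 h3.2
  obtain ⟨g1, g2, g3, g4⟩ := nM (D := D) h8
  have b1 := (D.AL_bounds r0 r1).1
  have b2 := (D.AL_bounds (Y := D.HR - 1 - y / n) (by omega) (by omega)).1
  have b3 : D.AR (y / n) = -D.AL (D.HR - 1 - y / n) := rfl
  have eH : n * D.HR = 2 * (n * D.N) - 2 * (n * D.τ) := by unfold RG.HR; ring
  -- left and right
  have c1 : n * (-(D.N : ℤ) + D.τ) ≤ n * D.AL (y / n) := mul_le_mul_of_nonneg_left b1 hn.le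
  have c2 : n * D.AR (y / n) ≤ n * (D.N - D.τ) := mul_le_mul_of_nonneg_left (by omega) hn.le
  have c3 : n * (-(D.N : ℤ) + D.τ) = n * D.τ - n * D.N := by ring
  have c4 : n * ((D.N : ℤ) - D.τ) = n * D.N - n * D.τ := by ring
  have hx : n * D.AL (y / n) - 1 ≤ x ∧ x ≤ n * D.AR (y / n) := by
    have hab := (D.cw s).ab (y / n) r0 r1
    have hab' : n * D.AL (y / n) + n ≤ n * D.AR (y / n) := Pool.Agent.H5.FM.mul_gap hn hab
    rcases h4 with h4 | h4 | h4
    · have k1 : n * D.AL (y / n) ≤ x := by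
        have := h4.1
        rw [Int.le_ediv_iff_mul_le hn, mul_comm] at this
        exact this
      have k2 : x < n * D.AR (y / n) := by
        have := h4.2
        rw [Int.ediv_lt_iff_lt_mul hn, mul_comm] at this
        exact this
      omega
    · have := h4.2; omega
    · have := h4.2; omega
  unfold Sq RG.ow RG.Rr
  simp only
  rw [c4]
  refine ⟨⟨by omega, by omega⟩, by omega, by omega⟩

/-- **open plates without their notch tiles** -/
theorem plate_coN (h8 : 8 ≤ n) {q : ℕ × ℤ} {W : Finset (ℤ × ℤ)}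
    (hW : ∀ t, D.tp n (D.ow n) t = some q → lt t ∉ EN ((D.cw s).win n h2 he) false → lt t ∈ W)
    {t t' p p' : ℤ × ℤ} (h : D.tp n (D.ow n) t = some q) (h' : D.tp n (D.ow n) t' = some q)
    (ht : lt t ∉ EN ((D.cw s).win n h2 he) false) (ht' : lt t' ∉ EN ((D.cw s).win n h2 he) false)
    (hp : Cn t p) (hp' : Cn t' p') (e : (p.1 + p.2) % 2 = 0) (e' : (p'.1 + p'.2) % 2 = 0) :
    Co W (V p) (V p') := by
  have k : ¬ NT D s n t := fun g => ht ((mem_E_plate h2 he h).2 g)
  have k' : ¬ NT D s n t' := fun g => ht' ((mem_E_plate h2 he h').2 g)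
  exact (tp_chN h8 h h' k k').co
    (fun c hc => hW c hc.1 fun g => hc.2 ((mem_E_plate h2 he hc.1).1 g)) ⟨h, k⟩ hp e p' hp' e'

/-- **closed plates without their notch tiles** (`W = E ∪ V`: `lt t ∉ W` for the tiles outside of `E`) -/
theorem plate_dcoN (h8 : 8 ≤ n) {q : ℕ × ℤ} {W : Finset (ℤ × ℤ)}
    (hW : ∀ t, D.tp n (D.ow n) t = some q → lt t ∉ EN ((D.cw s).win n h2 he) false → lt t ∉ W)
    {t t' p p' : ℤ × ℤ} (h : D.tp n (D.ow n) t = some q) (h' : D.tp n (D.ow n) t' = some q)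
    (ht : lt t ∉ EN ((D.cw s).win n h2 he) false) (ht' : lt t' ∉ EN ((D.cw s).win n h2 he) false)
    (hp : Cn t p) (hp' : Cn t' p') (e : (p.1 + p.2) % 2 = 1) (e' : (p'.1 + p'.2) % 2 = 1) :
    DCo W (Fc p) (Fc p') := by
  have k : ¬ NT D s n t := fun g => ht ((mem_E_plate h2 he h).2 g)
  have k' : ¬ NT D s n t' := fun g => ht' ((mem_E_plate h2 he h').2 g)
  exact (tp_chN h8 h h' k k').dco
    (fun c hc => hW c hc.1 fun g => hc.2 ((mem_E_plate h2 he hc.1).1 g)) ⟨h, k⟩ hp e p' hp' e'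

/-! ### The ring for worlds without the notch tiles -/

/-- **filling the notch tiles**: a world with solid plates which agrees with `W` outside of the square -/
theorem exists_fill (h8 : 8 ≤ n) {W : Finset (ℤ × ℤ)}
    (hW : ∀ t q, lt t ∉ EN ((D.cw s).win n h2 he) false → D.rg (cl n (D.ow n) t) = some q →
      (lt t ∈ W ↔ s q = true)) :
    ∃ w : Finset (ℤ × ℤ), (∀ t q, D.rg (cl n (D.ow n) t) = some q → (lt t ∈ w ↔ s q = true)) ∧
      ∀ e ∈ Ou (D.ow n) (D.Rr n), (e.1 + e.2) % 2 = 1 → (e ∈ w ↔ e ∈ W) := by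
  classical
  set E := EN ((D.cw s).win n h2 he) false with hE
  refine ⟨(W.filter fun e => e ∉ E) ∪
    (E.filter fun e => ∃ q, D.rg (cl n (D.ow n) (tt e)) = some q ∧ s q = true), ?_, ?_⟩
  · intro t q hq
    rw [mem_union, mem_filter, mem_filter, tt_lt]
    by_cases h : lt t ∈ E
    · constructor
      · rintro (h1 | ⟨-, q', h3, h4⟩)
        · exact absurd h h1.2
        · rw [hq] at h3
          rw [Option.some_injective _ h3]; exact h4
      · intro h1
        exact Or.inr ⟨h, q, hq, h1⟩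
    · rw [← hW t q h hq]
      constructor
      · rintro (h1 | h1)
        · exact h1.1
        · exact absurd h1.1 h
      · intro h1
        exact Or.inl ⟨h1, h⟩
  · intro e he' ho
    have h : e ∉ E := by
      intro h
      apply he'
      have h3 : lt (tt e) ∈ E := by rw [lt_tt ho]; exact h
      exact e_sq h2 he h8 h3
    rw [mem_union, mem_filter, mem_filter]
    constructor
    · rintro (h1 | h1)
      · exact h1.1
      · exact absurd h1.1 h
    · intro h1
      exact Or.inl ⟨h1, h⟩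

end

lemma nx_congr {w w' : Finset (ℤ × ℤ)} {x : ℤ × ℤ} (h : lab x ∈ w ↔ lab x ∈ w') :
    nx w' x = nx w x := by
  unfold nx
  by_cases h5 : lab x ∈ w
  · rw [if_pos h5, if_pos (h.1 h5)]
  · rw [if_neg h5, if_neg (fun k => h5 (h.2 k))]

/-- first returns see only the labels of `Λ` -/
lemma Ret.congr {Λ : Set (ℤ × ℤ)} {w w' : Finset (ℤ × ℤ)} {c d : ℤ × ℤ}
    (h : ∀ e ∈ Λ, (e.1 + e.2) % 2 = 1 → (e ∈ w ↔ e ∈ w')) (hr : Ret Λ w c d) : Ret Λ w' c d := by
  obtain ⟨m, h1, h2, h3⟩ := hr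
  have key : ∀ i ≤ m, (nx w')^[i] c = (nx w)^[i] c := by
    intro i
    induction i with
    | zero => intro _; rfl
    | succ i ih =>
      intro hi
      rw [Function.iterate_succ_apply', Function.iterate_succ_apply', ih (by omega)]
      exact nx_congr (h _ (h3 i (by omega)) (Pool.Agent.H47.W.lab_odd' _))
  refine ⟨m, by rw [key m le_rfl, h1], h2, fun i hi => ?_⟩
  rw [key i hi.le]
  exact h3 i hi

/-- also strands which never leave `Λ` -/
lemma never_congr {Λ : Set (ℤ × ℤ)} {w w' : Finset (ℤ × ℤ)} {c : ℤ × ℤ}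
    (h : ∀ e ∈ Λ, (e.1 + e.2) % 2 = 1 → (e ∈ w ↔ e ∈ w')) (hr : ∀ i : ℕ, lab ((nx w)^[i] c) ∈ Λ) :
    ∀ i : ℕ, lab ((nx w')^[i] c) ∈ Λ := by
  have key : ∀ i : ℕ, (nx w')^[i] c = (nx w)^[i] c := by
    intro i
    induction i with
    | zero => rfl
    | succ i ih =>
      rw [Function.iterate_succ_apply', Function.iterate_succ_apply', ih]
      exact nx_congr (h _ (hr i) (Pool.Agent.H47.W.lab_odd' _))
  intro i
  rw [key i]
  exact hr i

end Pool.Agent.H68.G
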