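import Mathlib
import Pool.Agent.H68.G.PlN
import Pool.Agent.H40.W.R3.Arc1

set_option autoImplicit false
open Finset

/-!
# The solid plates of the window world join their corners (Route W, W-G, R3b)
-/

namespace Pool.Agent.H68.G

open Pool.Agent.H75.Perc hiding WL CT hh PB
open Pool.Agent.H75.TwoArm
open Pool.Agent.H33.Q1 hiding rc
open Pool.Agent.H5.FM
open Pool.Agent.H74.Win (InP EN mem_EN)
open Pool.Agent.H65.G
open Pool.Agent.H40.W.R3 (Plates)

/-- **The plates of the window world**, notch tiles excluded. -/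
theorem plates_win {D : RG} {s : ℕ × ℤ → Bool} {n : ℤ} (h2 : 2 ≤ n) (he : n % 2 = 0) (h8 : 8 ≤ n)
    {W : Finset (ℤ × ℤ)}
    (hW : ∀ t q, lt t ∉ EN ((D.cw s).win n h2 he) false → D.rg (cl n (D.ow n) t) = some q →
      (lt t ∈ W ↔ s q = true)) :
    Plates D n (D.ow n) s (EN ((D.cw s).win n h2 he) false) W where
  co q t t' a a' hq h h' ht ht' ha ha' e e' :=
    plate_coN h2 he h8 (fun c hc hE => (hW c q hE hc).2 hq) h h' ht ht' ha ha' e e'
  dco q t t' a a' hq h h' ht ht' ha ha' e e' := by
    refine plate_dcoN h2 he h8 (fun c hc hE hu => ?_) h h' ht ht' ha ha' e e'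
    rcases mem_union.1 hu with k | k
    · exact hE k
    · have := (hW c q hE hc).1 k
      rw [hq] at this
      exact absurd this (by simp)

end Pool.Agent.H68.G
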